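import Pool.Agent.L5helper57.AP.Final

/-!
# An explicit quadratic permutation which is exponentially one-way against `AC⁰[p]`

`F` is a permutation of `F_2^n` (for every `n`), given by quadratic polynomials each of which
involves at most four variables. It is computed in linear time, and so is its inverse. But circuits
of bounded depth with AND, OR, NOT and `MOD p` gates, of subexponential size, invert it only on an
exponentially small fraction of the inputs; the same `F` serves for all primes `p`.

The triples `(x_{3i}, x_{3i+1}, x_{3i+2})` are read as a bit `a_i` and a state `s_i` in `F_4`, and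
`F` maps them to `a_i + a_{i-1}` and `s_i + ω^{a_i} s_{i-1}`. To invert `F` one has to compute the
parities of all intervals of the first sequence (hard if `p` is odd) and all the products
`ω^{a_b + ⋯ + a_c}` (hard if `p = 2`). A circuit is replaced by polynomials of low degree over
`Z/p` (Razborov, Smolensky), correct at all nodes simultaneously up to a small probability. If they
compute the products over each one of `2m` blocks on a set `A` of inputs, then every function on `A`
is a combination of products in which each block is used at most half, up to a small excess; the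
number of such products, and with it the size of `A`, is smaller than `2^n` by a factor which is
exponential in `m`.
-/

namespace Pool.Agent.L5helper57.AP.BoundedDepthModP

open Pool.Agent.W856.Corner Pool.Agent.L5helper57.AP Pool.Agent.NPC

/-- The map `F` is a permutation of `{0,1}^n` for every `n`, each output bit depends on at most four
input bits, and `F` is computable in polynomial time. For every prime `p` and every `r ≥ 1` with
`10^12 (4 (p - 1))^{2d} r^{2d+3} < n`, every circuit of depth at most `d` with at most `2^r` AND and
OR gates, with any number of `MOD p` gates, and with input nodes of degree at most `r` over `Z/p`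
inverts `F` on at most `2^{n-r}` of the `2^n` inputs. In particular, for every prime `p` and every
`d`, for all large `n`, this holds with `r = n^{1/(2d+4)}`. -/
theorem result :
    (∀ n : ℕ, Function.Bijective (F : V n → V n)) ∧
    (∀ (n : ℕ) (j : Fin n), ∃ S : Finset (Fin n), S.card ≤ 4 ∧
      ∀ x y : V n, (∀ i ∈ S, x i = y i) → F x j = F y j) ∧
    (∃ f : List Bool → List Bool, PolyTime f ∧ ∀ (n : ℕ) (x : V n), f (str x) = str (F x)) ∧
    (∀ p : ℕ, p.Prime → ∀ (n k d : ℕ) (r : ℝ), 1 ≤ r →
      10 ^ 12 * (4 * ((p : ℝ) - 1)) ^ (2 * d) * r ^ (2 * d + 3) < n →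
      ∀ (C : Circuit p n k) (out : Fin n → Fin C.N), (k : ℝ) ≤ r → (∀ i, C.depth i ≤ d) →
        (C.andOr.card : ℝ) ≤ (2 : ℝ) ^ r →
        ((inverted C out).card : ℝ) ≤ (2 : ℝ) ^ ((n : ℝ) - r)) ∧
    (∀ p : ℕ, p.Prime → ∀ d : ℕ, ∀ᶠ n : ℕ in Filter.atTop,
      ∀ (k : ℕ) (C : Circuit p n k) (out : Fin n → Fin C.N),
        (k : ℝ) ≤ (n : ℝ) ^ (1 / (2 * d + 4 : ℝ)) → (∀ i, C.depth i ≤ d) →
        (C.andOr.card : ℝ) ≤ (2 : ℝ) ^ ((n : ℝ) ^ (1 / (2 * d + 4 : ℝ))) →
        ((inverted C out).card : ℝ) ≤ (2 : ℝ) ^ ((n : ℝ) - (n : ℝ) ^ (1 / (2 * d + 4 : ℝ)))) :=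
  ⟨fun _ => F_bijective, locality, ⟨strF, polyTime_strF, fun _ x => strF_str x⟩,
    fun _ hp _ _ _ _ hr hn C out hk hd hs => explicit hp hr hn C hk hd hs out,
    fun _ hp d => asymptotic hp d⟩

end Pool.Agent.L5helper57.AP.BoundedDepthModP
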