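import Pool.Agent.L5helper57.AP.Cases

/-!
# Circuits with parity gates which invert the quadratic permutation
-/

set_option autoImplicit false

namespace Pool.Agent.L5helper57.AP

open Finset Pool.Agent.W856.Corner

variable {n M : ℕ}

/-- the action of a control bit on a state -/
def rot (c : ZMod 2) (s : ZMod 2 × ZMod 2) : ZMod 2 × ZMod 2 :=
  (s.1 + c * (s.1 + s.2), s.2 + c * s.1)

/-- the states -/
def St (α : ℕ → ZMod 2) : ℕ → ZMod 2 × ZMod 2
  | 0 => (1, 0)
  | i + 1 => rot (α (i + 1)) (St α i)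

/-- the controls -/
def ctl (z : V n) (a : V M) (i : ℕ) : ZMod 2 :=
  co z (3 * i) + (if i = 0 then 0 else co a (i - 1))

/-- the shifted input -/
def shf (a : V M) (z : V n) : V n := fun j =>
  if (j : ℕ) % 3 = 0 then ctl z a ((j : ℕ) / 3)
  else if (j : ℕ) % 3 = 1 then z j + (St (ctl z a) ((j : ℕ) / 3)).1
  else z j + (St (ctl z a) ((j : ℕ) / 3)).2

theorem co_of_lt (x : V n) {k : ℕ} (h : k < n) : co x k = x ⟨k, h⟩ := by
  unfold co; rw [dif_pos h]

theorem co_shf0 (a : V M) (z : V n) {i : ℕ} (h : 3 * i < n) :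
    co (shf a z) (3 * i) = ctl z a i := by
  rw [co_of_lt _ h]
  unfold shf
  simp only
  rw [if_pos (by omega)]
  congr 1
  omega

theorem co_shf1 (a : V M) (z : V n) {i : ℕ} (h : 3 * i + 1 < n) :
    co (shf a z) (3 * i + 1) = co z (3 * i + 1) + (St (ctl z a) i).1 := by
  rw [co_of_lt _ h, co_of_lt z h]
  unfold shf
  simp only
  rw [if_neg (by omega), if_pos (by omega)]
  have : (3 * i + 1) / 3 = i := by omega
  rw [this]

theorem co_shf2 (a : V M) (z : V n) {i : ℕ} (h : 3 * i + 2 < n) :
    co (shf a z) (3 * i + 2) = co z (3 * i + 2) + (St (ctl z a) i).2 := by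
  rw [co_of_lt _ h, co_of_lt z h]
  unfold shf
  simp only
  rw [if_neg (by omega), if_neg (by omega)]
  have : (3 * i + 2) / 3 = i := by omega
  rw [this]

theorem shf_injective (a : V M) : Function.Injective (shf (n := n) a) := by
  intro z z' h
  have hctl : ctl z a = ctl z' a := by
    funext i
    by_cases hi : 3 * i < n
    · rw [← co_shf0 a z hi, ← co_shf0 a z' hi, h]
    · unfold ctl co
      rw [dif_neg hi, dif_neg hi]
  funext j
  have h1 := congrFun h j
  unfold shf at h1
  split_ifs at h1 with h2 h3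
  · unfold ctl at h1
    have e : 3 * ((j : ℕ) / 3) = j := by omega
    rw [e, co_eq z j, co_eq z' j] at h1
    exact add_right_cancel h1
  · rw [hctl] at h1
    exact add_right_cancel h1
  · rw [hctl] at h1
    exact add_right_cancel h1

section Field2

variable {K : Type} [Field K] [Algebra (ZMod 2) K]

/-- the embedding of the field with two elements -/
def io (K : Type) [Field K] [Algebra (ZMod 2) K] (c : ZMod 2) : K := algebraMap (ZMod 2) K c

theorem io_add (a b : ZMod 2) : io K (a + b) = io K a + io K b := map_add _ _ _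

theorem io_mul (a b : ZMod 2) : io K (a * b) = io K a * io K b := map_mul _ _ _

@[simp] theorem io_one : io K 1 = 1 := map_one _

@[simp] theorem io_zero : io K 0 = 0 := map_zero _

theorem bit_io (y : V n) (j : Fin n) : bit K y j = io K (y j) := by
  unfold bit
  rcases zmod2_c (y j) with h | h <;> rw [h]
  · rw [if_neg (by decide)]; simp
  · rw [if_pos rfl]; simp

theorem bi_io (b : Bool) (c : ZMod 2) (h : b = decide (c = 1)) : bi K b = io K c := by
  subst h
  unfold bi
  rcases zmod2_c c with h | h <;> rw [h]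
  · rw [if_neg (by decide)]; simp
  · simp

theorem char2 (x : K) : x + x = 0 := by
  have h : io K (1 + 1) = 0 := by rw [two_eq_zero_c]; simp
  rw [io_add, io_one] at h
  calc x + x = (1 + 1) * x := by ring
    _ = 0 := by rw [h, zero_mul]

theorem ctl_deg (z : V n) (i : ℕ) : (fun a : V M => io K (ctl z a i)) ∈ LK K M 1 := by
  by_cases h : i ≠ 0 ∧ i - 1 < M
  · have e : (fun a : V M => io K (ctl z a i)) =
        fun a : V M => (fun c : ZMod 2 => io K (co z (3 * i) + c)) (a ⟨i - 1, h.2⟩) := by
      funext a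
      unfold ctl
      rw [if_neg h.1, co_of_lt a h.2]
    rw [e]
    exact single_mem (K := K) ⟨i - 1, h.2⟩ (fun c : ZMod 2 => io K (co z (3 * i) + c))
  · have e : (fun a : V M => io K (ctl z a i)) = fun _ => io K (co z (3 * i)) := by
      funext a
      unfold ctl co
      by_cases hi : i = 0
      · rw [if_pos hi, add_zero]
      · rw [if_neg hi, dif_neg (fun hc => h ⟨hi, hc⟩), add_zero]
    rw [e]
    exact LK_const _ _

/-- the value of the output -/
theorem F_shf (a : V M) (z : V n) (j : Fin n) : F (shf a z) j =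
    if (j : ℕ) = 0 then ctl z a 0
    else if (j : ℕ) = 1 then z j + 1
    else if (j : ℕ) = 2 then z j
    else if (j : ℕ) % 3 = 0 then ctl z a ((j : ℕ) / 3) + ctl z a ((j : ℕ) / 3 - 1)
    else if (j : ℕ) % 3 = 1 then z j + co z (j - 3) +
      ctl z a ((j : ℕ) / 3) * (co z (j - 3) + co z (j - 2))
    else z j + co z (j - 3) + ctl z a ((j : ℕ) / 3) * co z (j - 4) := by
  obtain ⟨j, hj⟩ := j
  simp only
  rw [← co_of_lt (F (shf a z)) hj, ← co_of_lt z hj, co_of_lt (F (shf a z)) hj]
  unfold F
  simp only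
  rw [← co_of_lt (shf a z) hj]
  by_cases h3 : j < 3
  · rw [if_pos h3]
    obtain h | h | h : j = 0 ∨ j = 1 ∨ j = 2 := by omega
    · subst h
      rw [if_pos rfl]
      exact co_shf0 (i := 0) a z hj
    · subst h
      rw [if_neg (by omega), if_pos rfl]
      exact co_shf1 (i := 0) a z hj
    · subst h
      rw [if_neg (by omega), if_neg (by omega), if_pos rfl]
      refine (co_shf2 (i := 0) a z hj).trans ?_
      show _ + (0 : ZMod 2) = _
      rw [add_zero]
  · rw [if_neg h3, if_neg (show ¬ j = 0 by omega), if_neg (show ¬ j = 1 by omega),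
      if_neg (show ¬ j = 2 by omega)]
    obtain ⟨i, hi⟩ : ∃ i, j / 3 = i + 1 := ⟨j / 3 - 1, by omega⟩
    by_cases h0 : j % 3 = 0
    · rw [if_pos h0, if_pos h0, hi]
      obtain rfl : j = 3 * (i + 1) := by omega
      have e : 3 * (i + 1) - 3 = 3 * i := by omega
      rw [e, co_shf0 a z (by omega), co_shf0 a z (by omega), Nat.add_sub_cancel]
    · rw [if_neg h0, if_neg h0]
      by_cases h1 : j % 3 = 1
      · rw [if_pos h1, if_pos h1, hi]
        obtain rfl : j = 3 * (i + 1) + 1 := by omega
        have e1 : 3 * (i + 1) + 1 - 3 = 3 * i + 1 := by omega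
        have e2 : 3 * (i + 1) + 1 - 1 = 3 * (i + 1) := by omega
        have e3 : 3 * (i + 1) + 1 - 2 = 3 * i + 2 := by omega
        rw [e1, e2, e3, co_shf1 a z (by omega), co_shf1 a z (by omega), co_shf0 a z (by omega),
          co_shf2 a z (by omega)]
        show _ + (rot (ctl z a (i + 1)) (St (ctl z a) i)).1 + _ + _ = _
        unfold rot
        simp only
        linear_combination two_eq_zero_c ((St (ctl z a) i).1) +
          two_eq_zero_c (ctl z a (i + 1) * ((St (ctl z a) i).1 + (St (ctl z a) i).2))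
      · rw [if_neg h1, if_neg h1, hi]
        obtain rfl : j = 3 * (i + 1) + 2 := by omega
        have e1 : 3 * (i + 1) + 2 - 3 = 3 * i + 2 := by omega
        have e2 : 3 * (i + 1) + 2 - 2 = 3 * (i + 1) := by omega
        have e3 : 3 * (i + 1) + 2 - 4 = 3 * i + 1 := by omega
        rw [e1, e2, e3, co_shf2 a z (by omega), co_shf2 a z (by omega), co_shf0 a z (by omega),
          co_shf1 a z (by omega)]
        show _ + (rot (ctl z a (i + 1)) (St (ctl z a) i)).2 + _ + _ = _
        unfold rot
        simp only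
        linear_combination two_eq_zero_c ((St (ctl z a) i).2) +
          two_eq_zero_c (ctl z a (i + 1) * (St (ctl z a) i).1)

theorem F_shf_deg (z : V n) (j : Fin n) : (fun a : V M => bit K (F (shf a z)) j) ∈ LK K M 1 := by
  have e : (fun a : V M => bit K (F (shf a z)) j) = fun a : V M => io K (
      if (j : ℕ) = 0 then ctl z a 0
      else if (j : ℕ) = 1 then z j + 1
      else if (j : ℕ) = 2 then z j
      else if (j : ℕ) % 3 = 0 then ctl z a ((j : ℕ) / 3) + ctl z a ((j : ℕ) / 3 - 1)
      else if (j : ℕ) % 3 = 1 then z j + co z (j - 3) +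
        ctl z a ((j : ℕ) / 3) * (co z (j - 3) + co z (j - 2))
      else z j + co z (j - 3) + ctl z a ((j : ℕ) / 3) * co z (j - 4)) := by
    funext a
    rw [bit_io, F_shf]
  rw [e]
  have hlin : ∀ (i : ℕ) (c c' : ZMod 2), (fun a : V M => io K (c + ctl z a i * c')) ∈ LK K M 1 := by
    intro i c c'
    have e : (fun a : V M => io K (c + ctl z a i * c')) =
        (fun _ => io K c) + io K c' • fun a : V M => io K (ctl z a i) := by
      funext a
      rw [io_add, io_mul, Pi.add_apply, Pi.smul_apply, smul_eq_mul]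
      ring
    rw [e]
    exact Submodule.add_mem _ (LK_const _ _) (Submodule.smul_mem _ _ (ctl_deg z i))
  split_ifs
  · exact ctl_deg z 0
  · exact LK_const _ _
  · exact LK_const _ _
  · have e : (fun a : V M => io K (ctl z a ((j : ℕ) / 3) + ctl z a ((j : ℕ) / 3 - 1))) =
        (fun a : V M => io K (ctl z a ((j : ℕ) / 3))) +
          fun a : V M => io K (ctl z a ((j : ℕ) / 3 - 1)) := by
      funext a
      rw [io_add]
      rfl
    rw [e]
    exact Submodule.add_mem _ (ctl_deg z _) (ctl_deg z _)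
  · exact hlin _ _ _
  · exact hlin _ _ _

variable (om : K)

/-- the state as an element of the field -/
def kap (s : ZMod 2 × ZMod 2) : K := io K s.1 + om * io K s.2

/-- the factor of a control bit -/
def fac (c : ZMod 2) : K := if c = 1 then om else 1

theorem kap_rot (hom : om ^ 2 + om + 1 = 0) (c : ZMod 2) (s : ZMod 2 × ZMod 2) :
    kap om (rot c s) = kap om s * fac om c := by
  unfold kap rot fac
  rcases zmod2_c c with h | h <;> rw [h]
  · rw [if_neg (by decide)]
    simp
  · rw [if_pos rfl]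
    simp only [one_mul, io_add]
    have h2 := char2 (K := K) (io K s.1)
    have h3 := char2 (K := K) (io K s.2)
    have h4 := char2 (K := K) (om * io K s.2)
    linear_combination h2 - io K s.2 * hom + h3 + h4

omit [Algebra (ZMod 2) K] in
theorem om_cube (hom : om ^ 2 + om + 1 = 0) : om ^ 3 = 1 := by
  linear_combination (om - 1) * hom

omit [Algebra (ZMod 2) K] in
theorem fac_cube (hom : om ^ 2 + om + 1 = 0) (c : ZMod 2) : fac om c ^ 3 = 1 := by
  unfold fac
  split_ifs
  · exact om_cube om hom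
  · exact one_pow 3

theorem kap_St (hom : om ^ 2 + om + 1 = 0) (α : ℕ → ZMod 2) (i : ℕ) :
    kap om (St α i) ^ 3 = 1 := by
  induction i with
  | zero => simp [St, kap]
  | succ i ih =>
    show kap om (rot _ _) ^ 3 = 1
    rw [kap_rot om hom, mul_pow, ih, fac_cube om hom, one_mul]

end Field2

/-- Characteristic two. -/
theorem case_two {k d t m h : ℕ} (C : Circuit 2 n k)
    (hd : ∀ i, C.depth i ≤ d) (ht : 1 ≤ t) (hm : 1 ≤ m) (hh : 1 ≤ h)
    (hD : 12 * (k * ((2 - 1) * t) ^ d) ≤ h) (hn : 3 * (2 * m * bs h) + 2 < n)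
    (out : Fin n → Fin C.N) :
    ((inverted C out).card : ℝ) ≤ 2 ^ n * (2 * Real.exp (-((m : ℝ) / 16384)) +
      C.andOr.card / 2 ^ t) := by
  classical
  set M := 2 * m * bs h with hM
  let K := AlgebraicClosure (ZMod 2)
  obtain ⟨om, hom⟩ : ∃ om : K, om ^ 2 + om + 1 = 0 := by
    have hdeg : (Polynomial.X ^ 2 + Polynomial.X + 1 : Polynomial K).degree = 2 := by
      compute_degree!
    obtain ⟨om, h⟩ := IsAlgClosed.exists_root (Polynomial.X ^ 2 + Polynomial.X + 1 : Polynomial K)
      (by rw [hdeg]; norm_num)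
    exact ⟨om, by simpa [Polynomial.IsRoot] using h⟩
  have hom0 : om ≠ 0 := by
    rintro rfl
    simp at hom
  have hom1 : om ≠ 1 := by
    rintro rfl
    have h1 := char2 (K := K) 1
    have : (1 : K) ^ 2 + 1 + 1 = 1 := by linear_combination h1
    rw [this] at hom
    exact one_ne_zero hom
  obtain ⟨z, hz⟩ := exists_shift (M := M) (inverted C out) (fun a z => shf a z)
    (fun a => shf_injective a)
  set E : Finset (V M) := univ.filter fun a => shf a z ∈ inverted C out with hE
  obtain ⟨U, A, hU, hAE, hUA, hcard⟩ := approx_sub (K := K) C hd ht (φ := fun a => F (shf a z))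
    (fun j => F_shf_deg z j) E
  have hlt : ∀ j : Fin (2 * m), 3 * (bs h * ((j : ℕ) + 1)) + 2 < n := by
    intro j
    have : bs h * ((j : ℕ) + 1) ≤ bs h * (2 * m) := Nat.mul_le_mul_left _ j.2
    have e : bs h * (2 * m) = M := by rw [hM]; ring
    omega
  have hlt0 : ∀ j : Fin (2 * m), 3 * (bs h * (j : ℕ)) + 2 < n := by
    intro j
    have := hlt j
    have : bs h * (j : ℕ) ≤ bs h * ((j : ℕ) + 1) := Nat.mul_le_mul_left _ (by omega)
    omega
  -- the state read off from the circuit
  let R : (i : ℕ) → 3 * i + 2 < n → V M → K := fun i hi =>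
    (U (out ⟨3 * i + 1, by omega⟩) + om • U (out ⟨3 * i + 2, hi⟩)) +
      fun _ => io K (co z (3 * i + 1)) + om * io K (co z (3 * i + 2))
  have hR : ∀ i hi, R i hi ∈ LK K M (k * ((2 - 1) * t) ^ d) := fun i hi =>
    Submodule.add_mem _ (Submodule.add_mem _ (hU _) (Submodule.smul_mem _ _ (hU _)))
      (LK_const _ _)
  have hRA : ∀ a ∈ A, ∀ i hi, R i hi a = kap om (St (ctl z a) i) := by
    intro a ha i hi
    have hx := (Finset.mem_filter.1 (hAE ha)).2
    have hinv : ∀ j, C.val (out j) (F (shf a z)) = decide (shf a z j = 1) :=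
      (Finset.mem_filter.1 hx).2
    have hUx : ∀ j : Fin n, U (out j) a = io K (shf a z j) := by
      intro j
      rw [hUA a ha (out j)]
      exact bi_io _ _ (hinv j)
    have e1 : shf a z ⟨3 * i + 1, by omega⟩ = co z (3 * i + 1) + (St (ctl z a) i).1 := by
      rw [← co_of_lt (shf a z) (k := 3 * i + 1) (by omega)]
      exact co_shf1 a z (by omega)
    have e2 : shf a z ⟨3 * i + 2, hi⟩ = co z (3 * i + 2) + (St (ctl z a) i).2 := by
      rw [← co_of_lt (shf a z) (k := 3 * i + 2) hi]
      exact co_shf2 a z hi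
    show (U (out ⟨3 * i + 1, by omega⟩) a + om * U (out ⟨3 * i + 2, hi⟩) a) +
      (io K (co z (3 * i + 1)) + om * io K (co z (3 * i + 2))) = _
    rw [hUx, hUx, e1, e2, io_add, io_add]
    unfold kap
    have h2 := char2 (K := K) (io K (co z (3 * i + 1)))
    have h3 := char2 (K := K) (om * io K (co z (3 * i + 2)))
    linear_combination h2 + h3
  let Q : Fin (2 * m) → V M → K := fun j => R _ (hlt j) * (R _ (hlt0 j)) ^ 2
  have hQ : ∀ j, Q j ∈ LK K M (3 * (k * ((2 - 1) * t) ^ d)) := by
    intro j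
    refine LK_mono ?_ (LK_mul (hR _ (hlt j)) (LK_pow 2 (hR _ (hlt0 j))))
    omega
  have hA : ∀ a ∈ A, ∀ j, Q j a = ∏ i ∈ univ.filter (fun i => blk m h i = j),
      (fun (i : Fin M) (c : ZMod 2) => fac om (co z (3 * ((i : ℕ) + 1)) + c)) i (a i) := by
    intro a ha j
    have e1 : Q j a = kap om (St (ctl z a) (bs h * ((j : ℕ) + 1))) *
        kap om (St (ctl z a) (bs h * (j : ℕ))) ^ 2 := by
      rw [← hRA a ha _ (hlt j), ← hRA a ha _ (hlt0 j)]
      rfl
    have e2 := telescope (fun i => kap om (St (ctl z a) i))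
      (fun i => fac om (co z (3 * (i + 1)) + co a i)) (bs h * (j : ℕ)) (bs h) (by
        intro r _
        show kap om (rot _ _) = _
        rw [kap_rot om hom]
        congr 2)
    have e3 : bs h * ((j : ℕ) + 1) = bs h * (j : ℕ) + bs h := by ring
    rw [e1, e3, e2]
    have e4 := prod_blk (K := K) m h (fun i => fac om (co z (3 * (i + 1)) + co a i)) j
    rw [← e4]
    have e5 : ∀ i ∈ univ.filter (fun i : Fin (2 * m * bs h) => blk m h i = j),
        (fun i : ℕ => fac om (co z (3 * (i + 1)) + co a i)) (i : ℕ) =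
        (fun (i : Fin M) (c : ZMod 2) => fac om (co z (3 * ((i : ℕ) + 1)) + c)) i (a i) := by
      intro i _
      simp only
      rw [co_eq a i]
    rw [Finset.prod_congr rfl e5, mul_right_comm, ← pow_succ', kap_St om hom, one_mul]
  have hf0 : ∀ c : ZMod 2, fac om c ≠ 0 := by
    intro c
    unfold fac
    split_ifs
    · exact hom0
    · exact one_ne_zero
  have hf1 : ∀ c : ZMod 2, fac om (c + 0) ≠ fac om (c + 1) := by
    intro c
    unfold fac
    rcases zmod2_c c with h | h <;> rw [h]
    · rw [if_neg (by decide), if_pos (by decide)]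
      exact hom1.symm
    · rw [if_pos (by decide), if_neg (by decide)]
      exact hom1
  have hdens := dens_bound m h (3 * (k * ((2 - 1) * t) ^ d)) hh hm (by omega)
    (fun (i : Fin (2 * m * bs h)) (c : ZMod 2) => fac om (co z (3 * ((i : ℕ) + 1)) + c))
    (fun i => hf0 _) (fun i => hf0 _) (fun i => hf1 _) A Q hQ hA
  -- counting
  have hz' : (2 : ℝ) ^ M * (inverted C out).card ≤ 2 ^ n * E.card := by exact_mod_cast hz
  have hc' : (E.card : ℝ) * 2 ^ t ≤ A.card * 2 ^ t + C.andOr.card * 2 ^ M := by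
    exact_mod_cast hcard
  have hE' : (E.card : ℝ) ≤ 2 ^ M * (2 * Real.exp (-((m : ℝ) / 16384)) +
      C.andOr.card / 2 ^ t) := by
    have h2t : (0 : ℝ) < 2 ^ t := by positivity
    have h6 : (E.card : ℝ) ≤ A.card + C.andOr.card * 2 ^ M / 2 ^ t := by
      rw [← sub_nonneg] at hc' ⊢
      have : (A.card : ℝ) + C.andOr.card * 2 ^ M / 2 ^ t - E.card =
          (A.card * 2 ^ t + C.andOr.card * 2 ^ M - E.card * 2 ^ t) / 2 ^ t := by
        field_simp
      rw [this]
      positivity
    have h7 : (C.andOr.card : ℝ) * 2 ^ M / 2 ^ t = 2 ^ M * (C.andOr.card / 2 ^ t) := by ring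
    rw [h7] at h6
    rw [mul_add]
    linarith
  have h2M : (0 : ℝ) < 2 ^ M := by positivity
  have h8 : (2 : ℝ) ^ M * (inverted C out).card ≤ 2 ^ M * (2 ^ n *
      (2 * Real.exp (-((m : ℝ) / 16384)) + C.andOr.card / 2 ^ t)) := by
    calc _ ≤ _ := hz'
      _ ≤ 2 ^ n * (2 ^ M * (2 * Real.exp (-((m : ℝ) / 16384)) + C.andOr.card / 2 ^ t)) :=
          mul_le_mul_of_nonneg_left hE' (by positivity)
      _ = _ := by ring
  exact le_of_mul_le_mul_left h8 h2M

end Pool.Agent.L5helper57.AP
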