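import Pool.Agent.L5helper57.AP.Fn

/-!
# Circuits which invert the quadratic permutation
-/

set_option autoImplicit false

namespace Pool.Agent.L5helper57.AP

open Finset Pool.Agent.W856.Corner

variable {n : ℕ}

/-- The inputs `x` which the circuit `C` with output nodes `out` finds when it is given `F x`. -/
def inverted {p k n : ℕ} (C : Circuit p n k) (out : Fin n → Fin C.N) : Finset (V n) :=
  univ.filter fun x => ∀ j, C.val (out j) (F x) = decide (x j = 1)

theorem two_eq_zero_c (a : ZMod 2) : a + a = 0 := by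
  rcases zmod2_c a with h | h <;> rw [h] <;> decide

section Odd

variable {K : Type} [Field K]

/-- signs -/
def sgn (K : Type) [Field K] (c : ZMod 2) : K := if c = 1 then -1 else 1

theorem sgn_add (a b : ZMod 2) : sgn K (a + b) = sgn K a * sgn K b := by
  unfold sgn
  rcases zmod2_c a with ha | ha <;> rcases zmod2_c b with hb | hb <;> rw [ha, hb]
  · simp
  · simp
  · simp
  · rw [if_neg (by decide), if_pos rfl]; ring

theorem sgn_sq (a : ZMod 2) : sgn K a * sgn K a = 1 := by
  rw [← sgn_add, two_eq_zero_c]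
  unfold sgn
  rw [if_neg (by decide)]

theorem sgn_ne_zero (a : ZMod 2) : sgn K a ≠ 0 := fun h => by
  have := sgn_sq (K := K) a
  rw [h, zero_mul] at this
  exact zero_ne_one this

/-- shift of the coordinates divisible by three -/
def emb {M : ℕ} (n : ℕ) (b : V M) : V n := fun j =>
  if (j : ℕ) % 3 = 0 ∧ 3 ≤ (j : ℕ) then co b ((j : ℕ) / 3 - 1) else 0

theorem co_emb {M : ℕ} (b : V M) (i : ℕ) (hi : 3 * (i + 1) < n) (z : V n) :
    co (z + emb n b) (3 * (i + 1)) = co z (3 * (i + 1)) + co b i := by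
  unfold co
  rw [dif_pos hi, dif_pos hi, Pi.add_apply]
  congr 1
  unfold emb
  simp only
  rw [if_pos ⟨by omega, by omega⟩]
  have : 3 * (i + 1) / 3 - 1 = i := by omega
  rw [this]
  rfl

theorem emb_deg {M : ℕ} (z : V n) (j : Fin n) :
    (fun b : V M => bit K (z + emb n b) j) ∈ LK K M 1 := by
  by_cases h : (j : ℕ) % 3 = 0 ∧ 3 ≤ (j : ℕ)
  · by_cases h2 : (j : ℕ) / 3 - 1 < M
    · have e : (fun b : V M => bit K (z + emb n b) j) =
          fun b : V M => (fun c : ZMod 2 => if z j + c = 1 then (1 : K) else 0)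
            (b ⟨(j : ℕ) / 3 - 1, h2⟩) := by
        funext b
        unfold bit emb co
        rw [Pi.add_apply]
        simp only
        rw [if_pos h, dif_pos h2]
      rw [e]
      exact single_mem (K := K) ⟨(j : ℕ) / 3 - 1, h2⟩
        (fun c : ZMod 2 => if z j + c = 1 then (1 : K) else 0)
    · have e : (fun b : V M => bit K (z + emb n b) j) = fun _ => bit K z j := by
        funext b
        unfold bit emb co
        rw [Pi.add_apply]
        rw [if_pos h, dif_neg h2, add_zero]
      rw [e]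
      exact LK_const _ _
  · have e : (fun b : V M => bit K (z + emb n b) j) = fun _ => bit K z j := by
      funext b
      unfold bit emb
      rw [Pi.add_apply]
      rw [if_neg h, add_zero]
    rw [e]
    exact LK_const _ _

theorem F_three (x : V n) (i : ℕ) (hi : 3 * (i + 1) < n) :
    co (F x) (3 * (i + 1)) = co x (3 * (i + 1)) + co x (3 * i) := by
  have e1 : co (F x) (3 * (i + 1)) = F x ⟨3 * (i + 1), hi⟩ := by
    unfold co; rw [dif_pos hi]
  have e2 : co x (3 * (i + 1)) = x ⟨3 * (i + 1), hi⟩ := by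
    unfold co; rw [dif_pos hi]
  rw [e1, e2]
  unfold F
  simp only
  rw [if_neg (by omega), if_pos (by omega)]
  congr 2

theorem sgn_step (x : V n) (i : ℕ) (hi : 3 * (i + 1) < n) :
    sgn K (co x (3 * (i + 1))) = sgn K (co x (3 * i)) * sgn K (co (F x) (3 * (i + 1))) := by
  rw [F_three x i hi, sgn_add, mul_comm (sgn K (co x (3 * (i + 1)))), ← mul_assoc, sgn_sq, one_mul]

theorem bi_sgn (b : Bool) (c : ZMod 2) (h : b = decide (c = 1)) : 1 - 2 * bi K b = sgn K c := by
  subst h
  unfold bi sgn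
  by_cases hc : c = 1
  · simp [hc]; ring
  · simp [hc]

/-- Characteristic different from two. -/
theorem case_odd {p : ℕ} [Fact p.Prime] (hp : p ≠ 2) {k d t m h : ℕ} (C : Circuit p n k)
    (hd : ∀ i, C.depth i ≤ d) (ht : 1 ≤ t) (hm : 1 ≤ m) (hh : 1 ≤ h)
    (hD : 12 * (k * ((p - 1) * t) ^ d) ≤ h) (hn : 3 * (2 * m * bs h) + 2 < n)
    (out : Fin n → Fin C.N) :
    ((inverted C out).card : ℝ) ≤ 2 ^ n * (2 * Real.exp (-((m : ℝ) / 16384)) +
      C.andOr.card / 2 ^ t) := by
  classical
  set M := 2 * m * bs h with hM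
  let K := ZMod p
  have h2 : (1 : K) ≠ -1 := by
    intro h1
    have h3 : (2 : K) = 0 := by
      have : (1 : K) + 1 = 0 := by
        nth_rewrite 1 [h1]
        exact neg_add_cancel 1
      rw [← this]; norm_num
    have h4 : ((2 : ℕ) : ZMod p) = 0 := by exact_mod_cast h3
    rw [ZMod.natCast_eq_zero_iff] at h4
    exact hp ((Nat.prime_dvd_prime_iff_eq Fact.out Nat.prime_two).1 h4)
  -- the set of outputs
  obtain ⟨z, hz⟩ := exists_shift (M := M) ((inverted C out).image F)
    (fun b z => z + emb n b) (fun b => add_left_injective _)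
  rw [Finset.card_image_of_injective _ F_injective] at hz
  set E : Finset (V M) := univ.filter fun b => z + emb n b ∈ (inverted C out).image F with hE
  obtain ⟨U, A, hU, hAE, hUA, hcard⟩ := approx_sub (K := K) C hd ht (φ := fun b => z + emb n b)
    (fun j => emb_deg z j) E
  have hlt : ∀ j : Fin (2 * m), 3 * (bs h * ((j : ℕ) + 1)) < n := by
    intro j
    have : bs h * ((j : ℕ) + 1) ≤ bs h * (2 * m) := Nat.mul_le_mul_left _ j.2
    have e : bs h * (2 * m) = M := by rw [hM]; ring
    omega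
  have hlt0 : ∀ j : Fin (2 * m), 3 * (bs h * (j : ℕ)) < n := by
    intro j
    have := hlt j
    have : bs h * (j : ℕ) ≤ bs h * ((j : ℕ) + 1) := Nat.mul_le_mul_left _ (by omega)
    omega
  let Q : Fin (2 * m) → V M → K := fun j =>
    (1 - (2 : K) • U (out ⟨_, hlt j⟩)) * (1 - (2 : K) • U (out ⟨_, hlt0 j⟩))
  have hQ : ∀ j, Q j ∈ LK K M (3 * (k * ((p - 1) * t) ^ d)) := by
    intro j
    refine LK_mono ?_ (LK_mul (Submodule.sub_mem _ (LK_one _) (Submodule.smul_mem _ _ (hU _)))
      (Submodule.sub_mem _ (LK_one _) (Submodule.smul_mem _ _ (hU _))))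
    omega
  have hA : ∀ b ∈ A, ∀ j, Q j b = ∏ i ∈ univ.filter (fun i => blk m h i = j),
      (fun (i : Fin M) (c : ZMod 2) => sgn K (co z (3 * ((i : ℕ) + 1)) + c)) i (b i) := by
    intro b hb j
    obtain ⟨x, hx, hFx⟩ := Finset.mem_image.1 (Finset.mem_filter.1 (hAE hb)).2
    have hinv : ∀ j, C.val (out j) (F x) = decide (x j = 1) := (Finset.mem_filter.1 hx).2
    have hUx : ∀ j : Fin n, 1 - 2 * U (out j) b = sgn K (x j) := by
      intro j
      rw [hUA b hb (out j)]
      rw [← hFx]
      exact bi_sgn _ _ (hinv j)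
    have e1 : Q j b = sgn K (co x (3 * (bs h * ((j : ℕ) + 1)))) *
        sgn K (co x (3 * (bs h * (j : ℕ)))) := by
      have f1 : co x (3 * (bs h * ((j : ℕ) + 1))) = x ⟨_, hlt j⟩ := by
        unfold co; rw [dif_pos (hlt j)]
      have f2 : co x (3 * (bs h * (j : ℕ))) = x ⟨_, hlt0 j⟩ := by
        unfold co; rw [dif_pos (hlt0 j)]
      rw [f1, f2, ← hUx, ← hUx]
      rfl
    have e2 := telescope (fun i => sgn K (co x (3 * i)))
      (fun i => sgn K (co z (3 * (i + 1)) + co b i)) (bs h * (j : ℕ)) (bs h) (by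
        intro r hr
        have hlt' : 3 * (bs h * (j : ℕ) + r + 1) < n := by
          have := hlt j
          have e : bs h * ((j : ℕ) + 1) = bs h * (j : ℕ) + bs h := by ring
          omega
        rw [sgn_step x _ hlt', hFx, co_emb b _ hlt'])
    have e3 : bs h * ((j : ℕ) + 1) = bs h * (j : ℕ) + bs h := by ring
    rw [e1, e3]
    rw [e2]
    have e4 := prod_blk (K := K) m h (fun i => sgn K (co z (3 * (i + 1)) + co b i)) j
    rw [← e4]
    have e5 : ∀ i ∈ univ.filter (fun i : Fin (2 * m * bs h) => blk m h i = j),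
        (fun i : ℕ => sgn K (co z (3 * (i + 1)) + co b i)) (i : ℕ) =
        (fun (i : Fin M) (c : ZMod 2) => sgn K (co z (3 * ((i : ℕ) + 1)) + c)) i (b i) := by
      intro i _
      simp only
      rw [co_eq b i]
    rw [Finset.prod_congr rfl e5, mul_right_comm, sgn_sq, one_mul]
  have hdens := dens_bound m h (3 * (k * ((p - 1) * t) ^ d)) hh hm (by omega)
    (fun (i : Fin (2 * m * bs h)) (c : ZMod 2) => sgn K (co z (3 * ((i : ℕ) + 1)) + c))
    (fun i => sgn_ne_zero _) (fun i => sgn_ne_zero _) (fun i h => by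
      rw [sgn_add, sgn_add] at h
      have := mul_left_cancel₀ (sgn_ne_zero _) h
      unfold sgn at this
      rw [if_neg (by decide), if_pos rfl] at this
      exact h2 this) A Q hQ hA
  -- counting
  have hz' : (2 : ℝ) ^ M * (inverted C out).card ≤ 2 ^ n * E.card := by exact_mod_cast hz
  have hc' : (E.card : ℝ) * 2 ^ t ≤ A.card * 2 ^ t + C.andOr.card * 2 ^ M := by
    exact_mod_cast hcard
  have hE' : (E.card : ℝ) ≤ 2 ^ M * (2 * Real.exp (-((m : ℝ) / 16384)) +
      C.andOr.card / 2 ^ t) := by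
    have h2t : (0 : ℝ) < 2 ^ t := by positivity
    have h6 : (E.card : ℝ) ≤ A.card + C.andOr.card * 2 ^ M / 2 ^ t := by
      rw [← sub_nonneg] at hc' ⊢
      have : (A.card : ℝ) + C.andOr.card * 2 ^ M / 2 ^ t - E.card =
          (A.card * 2 ^ t + C.andOr.card * 2 ^ M - E.card * 2 ^ t) / 2 ^ t := by
        field_simp
      rw [this]
      positivity
    have h7 : (C.andOr.card : ℝ) * 2 ^ M / 2 ^ t = 2 ^ M * (C.andOr.card / 2 ^ t) := by ring
    rw [h7] at h6
    rw [mul_add]
    linarith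
  have h2M : (0 : ℝ) < 2 ^ M := by positivity
  have h8 : (2 : ℝ) ^ M * (inverted C out).card ≤ 2 ^ M * (2 ^ n *
      (2 * Real.exp (-((m : ℝ) / 16384)) + C.andOr.card / 2 ^ t)) := by
    calc _ ≤ _ := hz'
      _ ≤ 2 ^ n * (2 ^ M * (2 * Real.exp (-((m : ℝ) / 16384)) + C.andOr.card / 2 ^ t)) :=
          mul_le_mul_of_nonneg_left hE' (by positivity)
      _ = _ := by ring
  exact le_of_mul_le_mul_left h8 h2M

end Odd

end Pool.Agent.L5helper57.AP
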