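import Pool.Agent.L5helper57.AP.Dim

/-!
# Tail bounds, and the density of sets with many block products of low degree
-/

set_option autoImplicit false

namespace Pool.Agent.L5helper57.AP

open Finset Pool.Agent.W856.Corner

/-- Chernoff's bound -/
theorem chernoff (M L : ℕ) (hM : 0 < M) (lam : ℝ) (h0 : 0 ≤ lam) (hL : (L : ℝ) ≤ M / 2 - lam) :
    ((∑ i ∈ range (L + 1), M.choose i : ℕ) : ℝ) ≤ 2 ^ M * Real.exp (-(2 * lam ^ 2 / M)) := by
  have hM' : (0 : ℝ) < M := by exact_mod_cast hM
  set θ : ℝ := 4 * lam / M with hθ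
  have hθ0 : 0 ≤ θ := by positivity
  have hLM : L ≤ M := by
    have : (L : ℝ) ≤ M := by linarith
    exact_mod_cast this
  have h1 : ((∑ i ∈ range (L + 1), M.choose i : ℕ) : ℝ) ≤
      ∑ i ∈ range (M + 1), (M.choose i : ℝ) * Real.exp (θ * (M / 2 - lam - i)) := by
    push_cast
    calc ∑ i ∈ range (L + 1), (M.choose i : ℝ)
        ≤ ∑ i ∈ range (L + 1), (M.choose i : ℝ) * Real.exp (θ * (M / 2 - lam - i)) := by
          refine Finset.sum_le_sum fun i hi => ?_
          have hi' : (i : ℝ) ≤ L := by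
            rw [Finset.mem_range] at hi
            exact_mod_cast Nat.lt_succ_iff.1 hi
          have : 1 ≤ Real.exp (θ * (M / 2 - lam - i)) := by
            apply Real.one_le_exp
            exact mul_nonneg hθ0 (by linarith)
          nlinarith [Nat.cast_nonneg (α := ℝ) (M.choose i)]
      _ ≤ _ := by
          refine Finset.sum_le_sum_of_subset_of_nonneg (fun i hi => ?_) fun i _ _ => by positivity
          rw [Finset.mem_range] at *
          omega
  have h2 : ∑ i ∈ range (M + 1), (M.choose i : ℝ) * Real.exp (θ * (M / 2 - lam - i)) =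
      Real.exp (-(θ * lam)) * (Real.exp (θ / 2) + Real.exp (-(θ / 2))) ^ M := by
    rw [add_comm (Real.exp (θ / 2)), add_pow, Finset.mul_sum]
    refine Finset.sum_congr rfl fun i hi => ?_
    rw [Finset.mem_range] at hi
    have e1 : Real.exp (-(θ / 2)) ^ i * Real.exp (θ / 2) ^ (M - i) =
        Real.exp (θ / 2 * (M - i) - θ / 2 * i) := by
      rw [← Real.exp_nat_mul, ← Real.exp_nat_mul, ← Real.exp_add]
      congr 1
      rw [Nat.cast_sub (by omega)]
      ring
    rw [e1]
    have e3 : Real.exp (-(θ * lam)) * (Real.exp (θ / 2 * (M - i) - θ / 2 * i) * (M.choose i : ℝ)) =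
        (M.choose i : ℝ) * Real.exp (-(θ * lam) + (θ / 2 * (M - i) - θ / 2 * i)) := by
      rw [Real.exp_add]; ring
    rw [e3]
    congr 2
    ring
  have h3 : (Real.exp (θ / 2) + Real.exp (-(θ / 2))) ^ M ≤ 2 ^ M * Real.exp (M * (θ ^ 2 / 8)) := by
    have h4 : Real.exp (θ / 2) + Real.exp (-(θ / 2)) ≤ 2 * Real.exp (θ ^ 2 / 8) := by
      have := Real.cosh_le_exp_half_sq (θ / 2)
      rw [Real.cosh_eq] at this
      have e : (θ / 2) ^ 2 / 2 = θ ^ 2 / 8 := by ring
      rw [e] at this
      linarith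
    calc _ ≤ (2 * Real.exp (θ ^ 2 / 8)) ^ M := pow_le_pow_left₀ (by positivity) h4 M
      _ = _ := by rw [mul_pow, ← Real.exp_nat_mul]
  calc _ ≤ _ := h1
    _ = _ := h2
    _ ≤ Real.exp (-(θ * lam)) * (2 ^ M * Real.exp (M * (θ ^ 2 / 8))) :=
        mul_le_mul_of_nonneg_left h3 (Real.exp_pos _).le
    _ = 2 ^ M * Real.exp (-(θ * lam) + M * (θ ^ 2 / 8)) := by rw [Real.exp_add]; ring
    _ = _ := by
        congr 2
        rw [hθ]
        field_simp
        ring

/-- the central binomial coefficient -/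
theorem centralBinom_sq_le (q : ℕ) : q.centralBinom ^ 2 * (2 * q + 1) ≤ 16 ^ q := by
  induction q with
  | zero => simp
  | succ q ih =>
    have h1 := Nat.succ_mul_centralBinom_succ q
    have h2 : (q + 1) ^ 2 * ((q + 1).centralBinom ^ 2 * (2 * (q + 1) + 1)) ≤
        (q + 1) ^ 2 * 16 ^ (q + 1) := by
      calc (q + 1) ^ 2 * ((q + 1).centralBinom ^ 2 * (2 * (q + 1) + 1))
          = ((q + 1) * (q + 1).centralBinom) ^ 2 * (2 * q + 3) := by ring
        _ = (4 * (2 * q + 1) * (2 * q + 3)) * (q.centralBinom ^ 2 * (2 * q + 1)) := by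
            rw [h1]; ring
        _ ≤ (4 * (2 * q + 1) * (2 * q + 3)) * 16 ^ q := Nat.mul_le_mul_left _ ih
        _ ≤ (16 * (q + 1) ^ 2) * 16 ^ q := by
            refine Nat.mul_le_mul_right _ ?_
            nlinarith
        _ = (q + 1) ^ 2 * 16 ^ (q + 1) := by ring
    exact Nat.le_of_mul_le_mul_left h2 (by positivity)

/-- the size of a block -/
def bs (h : ℕ) : ℕ := 4096 * h ^ 2

/-- balanced subsets of a block are rare -/
theorem balanced_card (h : ℕ) (hh : 1 ≤ h) :
    16 * (univ.filter fun T : Finset (Fin (bs h)) =>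
      bs h / 2 - h < min T.card (Tᶜ).card).card ≤ Fintype.card (Finset (Fin (bs h))) := by
  classical
  have hb : bs h = 2 * (2048 * h ^ 2) := by unfold bs; ring
  have hb2 : bs h / 2 = 2048 * h ^ 2 := by omega
  have hle : h ≤ 2048 * h ^ 2 := by nlinarith
  have hsub : (univ.filter fun T : Finset (Fin (bs h)) => bs h / 2 - h < min T.card (Tᶜ).card) ⊆
      (Ioo (2048 * h ^ 2 - h) (2048 * h ^ 2 + h)).biUnion fun i =>
        powersetCard i (univ : Finset (Fin (bs h))) := by
    intro T hT
    rw [Finset.mem_filter, hb2, lt_min_iff, Finset.card_compl, Fintype.card_fin] at hT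
    rw [Finset.mem_biUnion]
    refine ⟨T.card, ?_, ?_⟩
    · rw [Finset.mem_Ioo]
      omega
    · rw [Finset.mem_powersetCard]
      exact ⟨Finset.subset_univ _, rfl⟩
  have h1 : (univ.filter fun T : Finset (Fin (bs h)) =>
      bs h / 2 - h < min T.card (Tᶜ).card).card ≤ (2 * h) * (2048 * h ^ 2).centralBinom := by
    refine (Finset.card_le_card hsub).trans (Finset.card_biUnion_le.trans ?_)
    calc ∑ i ∈ Ioo (2048 * h ^ 2 - h) (2048 * h ^ 2 + h),
          (powersetCard i (univ : Finset (Fin (bs h)))).card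
        ≤ ∑ _i ∈ Ioo (2048 * h ^ 2 - h) (2048 * h ^ 2 + h), (2048 * h ^ 2).centralBinom := by
          refine Finset.sum_le_sum fun i _ => ?_
          rw [Finset.card_powersetCard, Finset.card_univ, Fintype.card_fin, hb]
          exact Nat.choose_le_centralBinom i _
      _ ≤ _ := by
          rw [Finset.sum_const, smul_eq_mul, Nat.card_Ioo]
          refine Nat.mul_le_mul_right _ ?_
          omega
  have h2 : (2048 * h ^ 2).centralBinom * (64 * h) ≤ 4 ^ (2048 * h ^ 2) := by
    have h3 := centralBinom_sq_le (2048 * h ^ 2)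
    have h4 : ((2048 * h ^ 2).centralBinom * (64 * h)) ^ 2 ≤ (4 ^ (2048 * h ^ 2)) ^ 2 := by
      calc ((2048 * h ^ 2).centralBinom * (64 * h)) ^ 2
          = (2048 * h ^ 2).centralBinom ^ 2 * (4096 * h ^ 2) := by ring
        _ ≤ (2048 * h ^ 2).centralBinom ^ 2 * (2 * (2048 * h ^ 2) + 1) :=
            Nat.mul_le_mul_left _ (by omega)
        _ ≤ 16 ^ (2048 * h ^ 2) := h3
        _ = (4 ^ (2048 * h ^ 2)) ^ 2 := by
            generalize 2048 * h ^ 2 = q
            rw [show (16 : ℕ) = 4 ^ 2 by norm_num, ← pow_mul, ← pow_mul, mul_comm]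
    exact (Nat.pow_le_pow_iff_left (by norm_num)).1 h4
  rw [Fintype.card_finset, Fintype.card_fin, hb, pow_mul]
  norm_num only
  calc _ ≤ 16 * ((2 * h) * (2048 * h ^ 2).centralBinom) := Nat.mul_le_mul_left _ (by rwa [hb] at h1)
    _ ≤ (2048 * h ^ 2).centralBinom * (64 * h) := by nlinarith [(2048 * h ^ 2).centralBinom_pos]
    _ ≤ _ := h2

/-- the block of a coordinate -/
def blk (m h : ℕ) (i : Fin (2 * m * bs h)) : Fin (2 * m) := (finProdFinEquiv.symm i).1

theorem blk_card (m h : ℕ) (T : Finset (Fin (2 * m * bs h))) (j : Fin (2 * m)) :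
    (T.filter fun i => blk m h i = j).card =
      (univ.filter fun r : Fin (bs h) => finProdFinEquiv (j, r) ∈ T).card := by
  classical
  refine Finset.card_bij' (fun i _ => (finProdFinEquiv.symm i).2)
    (fun r _ => finProdFinEquiv (j, r)) ?_ ?_ ?_ ?_
  · intro i hi
    rw [Finset.mem_filter] at hi ⊢
    refine ⟨Finset.mem_univ _, ?_⟩
    have : finProdFinEquiv (j, (finProdFinEquiv.symm i).2) = i := by
      rw [← hi.2]
      exact finProdFinEquiv.apply_symm_apply i
    rw [this]
    exact hi.1
  · intro r hr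
    rw [Finset.mem_filter] at hr ⊢
    refine ⟨hr.2, ?_⟩
    unfold blk
    rw [Equiv.symm_apply_apply]
  · intro i hi
    rw [Finset.mem_filter] at hi
    rw [← hi.2]
    exact finProdFinEquiv.apply_symm_apply i
  · intro r _
    simp only [Equiv.symm_apply_apply]

theorem bad_card (m h : ℕ) (hh : 1 ≤ h) (hm : 1 ≤ m) :
    (univ.filter fun T : Finset (Fin (2 * m * bs h)) =>
      m * bs h - m * h < blockDeg (blk m h) T).card * 4 ^ m ≤ 2 ^ (2 * m * bs h) := by
  classical
  have hb : bs h = 2 * (2048 * h ^ 2) := by unfold bs; ring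
  have hle : h ≤ 2048 * h ^ 2 := by nlinarith
  have h1 := tuples (univ.filter fun T : Finset (Fin (bs h)) =>
      bs h / 2 - h < min T.card (Tᶜ).card) (balanced_card h hh) m
  have h2 : Fintype.card (Fin (2 * m) → Finset (Fin (bs h))) = 2 ^ (2 * m * bs h) := by
    rw [Fintype.card_fun, Fintype.card_finset, Fintype.card_fin, Fintype.card_fin, ← pow_mul]
    congr 1
    ring
  rw [h2] at h1
  refine le_trans (Nat.mul_le_mul_right _ ?_) h1
  refine Finset.card_le_card_of_injOn
    (fun T j => univ.filter fun r : Fin (bs h) => finProdFinEquiv (j, r) ∈ T) ?_ ?_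
  · intro T hT
    rw [Finset.mem_coe, Finset.mem_filter] at hT ⊢
    refine ⟨Finset.mem_univ _, ?_⟩
    by_contra hlt
    push Not at hlt
    have h3 : ∀ j : Fin (2 * m), min (T.filter fun i => blk m h i = j).card
        (((univ.filter fun i => blk m h i = j) \ T).card) ≤
        bs h / 2 - h + if (univ.filter fun r : Fin (bs h) => finProdFinEquiv (j, r) ∈ T) ∈
          (univ.filter fun T : Finset (Fin (bs h)) =>
            bs h / 2 - h < min T.card (Tᶜ).card) then h else 0 := by
      intro j
      have e1 := blk_card m h T j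
      have e2 : ((univ.filter fun i => blk m h i = j) \ T).card =
          ((univ.filter fun r : Fin (bs h) => finProdFinEquiv (j, r) ∈ T)ᶜ).card := by
        have e3 : ((univ.filter fun i => blk m h i = j) \ T) = Tᶜ.filter fun i => blk m h i = j := by
          ext i
          simp only [Finset.mem_sdiff, Finset.mem_filter, Finset.mem_univ, true_and,
            Finset.mem_compl]
          tauto
        rw [e3, blk_card]
        congr 1
        ext r
        simp
      rw [e1, e2]
      split_ifs with hmem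
      · have h4 : (univ.filter fun r : Fin (bs h) => finProdFinEquiv (j, r) ∈ T).card +
            ((univ.filter fun r : Fin (bs h) => finProdFinEquiv (j, r) ∈ T)ᶜ).card = bs h := by
          rw [Finset.card_compl, Fintype.card_fin]
          have := Finset.card_le_univ (univ.filter fun r : Fin (bs h) => finProdFinEquiv (j, r) ∈ T)
          rw [Fintype.card_fin] at this
          omega
        omega
      · rw [Finset.mem_filter] at hmem
        push Not at hmem
        have := hmem (Finset.mem_univ _)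
        omega
    have h4 : blockDeg (blk m h) T ≤ 2 * m * (bs h / 2 - h) + (m - 1) * h := by
      unfold blockDeg
      refine (Finset.sum_le_sum fun j _ => h3 j).trans ?_
      rw [Finset.sum_add_distrib, Finset.sum_const, Finset.card_univ, Fintype.card_fin, smul_eq_mul,
        ← Finset.sum_filter, Finset.sum_const, smul_eq_mul]
      refine Nat.add_le_add_left (Nat.mul_le_mul_right _ ?_) _
      omega
    have h5 := hT.2
    obtain ⟨m', rfl⟩ : ∃ m', m = m' + 1 := ⟨m - 1, by omega⟩
    obtain ⟨c, hc⟩ : ∃ c, 2048 * h ^ 2 = h + c := ⟨2048 * h ^ 2 - h, by omega⟩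
    have e4 : bs h / 2 - h = c := by omega
    have e5 : bs h = 2 * (h + c) := by omega
    rw [e4] at h4
    have e6 : (m' + 1) * bs h - (m' + 1) * h = (m' + 1) * (h + 2 * c) := by
      rw [← Nat.mul_sub]
      congr 1
      omega
    rw [e6] at h5
    have e7 : 2 * (m' + 1) * c + (m' + 1 - 1) * h ≤ (m' + 1) * (h + 2 * c) := by
      rw [Nat.add_sub_cancel]
      nlinarith
    omega
  · intro T _ T' _ hTT
    ext i
    have := congrFun hTT (finProdFinEquiv.symm i).1
    have h3 := Finset.ext_iff.1 this (finProdFinEquiv.symm i).2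
    rw [Finset.mem_filter, Finset.mem_filter] at h3
    have h4 : finProdFinEquiv ((finProdFinEquiv.symm i).1, (finProdFinEquiv.symm i).2) = i :=
      finProdFinEquiv.apply_symm_apply i
    rw [h4] at h3
    simpa using h3

/-- A set of strings on which the products over all blocks are polynomials of low degree is
exponentially small in the number of blocks. -/
theorem dens_bound {K : Type} [Field K] (m h D : ℕ) (hh : 1 ≤ h) (hm : 1 ≤ m) (hD : 4 * D ≤ h)
    (g : Fin (2 * m * bs h) → ZMod 2 → K) (h0 : ∀ i, g i 0 ≠ 0) (h1 : ∀ i, g i 1 ≠ 0)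
    (h01 : ∀ i, g i 0 ≠ g i 1) (A : Finset (V (2 * m * bs h)))
    (Q : Fin (2 * m) → V (2 * m * bs h) → K) (hQ : ∀ j, Q j ∈ LK K (2 * m * bs h) D)
    (hA : ∀ y ∈ A, ∀ j, Q j y = ∏ i ∈ univ.filter (fun i => blk m h i = j), g i (y i)) :
    (A.card : ℝ) ≤ 2 ^ (2 * m * bs h) * (2 * Real.exp (-((m : ℝ) / 16384))) := by
  classical
  have hle : h ≤ 2048 * h ^ 2 := by nlinarith
  have hb : bs h = 2 * (2048 * h ^ 2) := by unfold bs; ring
  have hd := dim_bound (blk m h) g h0 h1 h01 A Q D hQ hA (m * bs h - m * h)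
  rw [Fintype.card_fin] at hd
  have hbad := bad_card m h hh hm
  have hM : 0 < 2 * m * bs h := by
    rw [hb]
    have : 0 < h := hh
    positivity
  have hch := chernoff (2 * m * bs h) (m * bs h - m * h + 2 * m * D) hM (m * h / 2)
    (by positivity) (by
      have e1 : ((m * bs h - m * h : ℕ) : ℝ) = m * bs h - m * h := by
        rw [Nat.cast_sub (Nat.mul_le_mul_left _ (by omega))]
        push_cast
        ring
      have e2 : (4 * D : ℝ) ≤ h := by exact_mod_cast hD
      have e3 : (0 : ℝ) ≤ m := Nat.cast_nonneg m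
      push_cast
      rw [e1]
      nlinarith)
  have e4 : -(2 * ((m : ℝ) * h / 2) ^ 2 / ((2 * m * bs h : ℕ) : ℝ)) = -((m : ℝ) / 16384) := by
    have hh' : (h : ℝ) ≠ 0 := by
      have : (0 : ℝ) < h := by exact_mod_cast hh
      exact this.ne'
    have hm' : (m : ℝ) ≠ 0 := by
      have : (0 : ℝ) < m := by exact_mod_cast hm
      exact this.ne'
    unfold bs
    push_cast
    field_simp
    norm_num
  rw [e4] at hch
  have h4 : (4 : ℝ) ^ m ≥ Real.exp ((m : ℝ) / 16384) := by
    have : Real.exp ((m : ℝ) / 16384) ≤ Real.exp (m : ℝ) := by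
      apply Real.exp_le_exp.2
      have : (0 : ℝ) ≤ m := Nat.cast_nonneg m
      linarith
    refine le_trans this ?_
    have e5 : Real.exp (m : ℝ) = Real.exp 1 ^ m := by rw [← Real.exp_nat_mul]; simp
    rw [e5]
    refine pow_le_pow_left₀ (Real.exp_pos _).le ?_ m
    have := Real.exp_one_lt_d9
    linarith
  have h5 : ((univ.filter fun T : Finset (Fin (2 * m * bs h)) =>
      m * bs h - m * h < blockDeg (blk m h) T).card : ℝ) ≤
      2 ^ (2 * m * bs h) * Real.exp (-((m : ℝ) / 16384)) := by
    have h6 : ((univ.filter fun T : Finset (Fin (2 * m * bs h)) =>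
      m * bs h - m * h < blockDeg (blk m h) T).card : ℝ) * 4 ^ m ≤ 2 ^ (2 * m * bs h) := by
      exact_mod_cast hbad
    rw [Real.exp_neg, ← div_eq_mul_inv, le_div_iff₀ (Real.exp_pos _)]
    refine le_trans ?_ h6
    exact mul_le_mul_of_nonneg_left h4 (Nat.cast_nonneg _)
  have h7 : (A.card : ℝ) ≤ ((∑ i ∈ range (m * bs h - m * h + 2 * m * D + 1),
      (2 * m * bs h).choose i : ℕ) : ℝ) + ((univ.filter fun T : Finset (Fin (2 * m * bs h)) =>
      m * bs h - m * h < blockDeg (blk m h) T).card : ℝ) := by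
    exact_mod_cast hd
  linarith

end Pool.Agent.L5helper57.AP
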