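import Mathlib
import Pool.Agent.W856.Corner8

/-!
# A dimension bound for sets on which many block products are polynomials of low degree
-/

set_option autoImplicit false

namespace Pool.Agent.L5helper57.AP

open Finset Pool.Agent.W856.Corner

variable {M : ℕ} {K : Type} [Field K]

/-- a function of one coordinate has degree at most one -/
theorem single_mem (i : Fin M) (g : ZMod 2 → K) : (fun y : V M => g (y i)) ∈ LK K M 1 := by
  have h : (fun y : V M => g (y i)) = (fun _ => g 0) + (g 1 - g 0) • mon K {i} := by
    funext y
    rw [Pi.add_apply, Pi.smul_apply, smul_eq_mul]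
    unfold mon bit
    rw [Finset.prod_singleton]
    rcases zmod2_c (y i) with h | h
    · rw [h]; simp
    · rw [h]; simp
  rw [h]
  exact Submodule.add_mem _ (LK_const _ _) (Submodule.smul_mem _ _ (mon_mem _ (by simp)))

/-- products of functions of one coordinate -/
theorem prod_mem (s : Finset (Fin M)) (g : Fin M → ZMod 2 → K) :
    (fun y : V M => ∏ i ∈ s, g i (y i)) ∈ LK K M s.card := by
  have h := LK_prod (K := K) (n := M) s (fun _ => 1) (fun i y => g i (y i))
    fun i _ => single_mem i (g i)
  have e : (∏ i ∈ s, fun y : V M => g i (y i)) = fun y : V M => ∏ i ∈ s, g i (y i) := by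
    funext y
    rw [Finset.prod_apply]
  rw [e] at h
  simpa using h

/-- the products over subsets span all functions -/
theorem span_prod (g : Fin M → ZMod 2 → K) (h01 : ∀ i, g i 0 ≠ g i 1) (f : V M → K) :
    f ∈ Submodule.span K (Set.range fun T : Finset (Fin M) =>
      (fun y : V M => ∏ i ∈ T, g i (y i))) := by
  classical
  have hδ : ∀ x : V M, (fun y : V M => if y = x then (1 : K) else 0) ∈
      Submodule.span K (Set.range fun T : Finset (Fin M) =>
        (fun y : V M => ∏ i ∈ T, g i (y i))) := by
    intro x
    let b : Fin M → K := fun i => if x i = 1 then (g i 1 - g i 0)⁻¹ else -(g i 1 - g i 0)⁻¹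
    let a : Fin M → K := fun i => (if x i = 1 then 0 else 1) - b i * g i 0
    have hfac : ∀ (y : V M) (i : Fin M), b i * g i (y i) + a i = if y i = x i then 1 else 0 := by
      intro y i
      have hne : g i 1 - g i 0 ≠ 0 := sub_ne_zero.2 (h01 i).symm
      have h4 : (g i 1 - g i 0)⁻¹ * (g i 1 - g i 0) = 1 := inv_mul_cancel₀ hne
      simp only [a, b]
      rcases zmod2_c (y i) with hy | hy <;> rcases zmod2_c (x i) with hx | hx <;>
        rw [hy, hx] <;> simp
      · linear_combination h4 * (-1 : K)
      · linear_combination h4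
    have e : (fun y : V M => if y = x then (1 : K) else 0) =
        ∑ T ∈ (univ : Finset (Fin M)).powerset, ((∏ i ∈ T, b i) * ∏ i ∈ univ \ T, a i) •
          (fun y : V M => ∏ i ∈ T, g i (y i)) := by
      funext y
      have h1 : (if y = x then (1 : K) else 0) = ∏ i, (b i * g i (y i) + a i) := by
        rw [Finset.prod_congr rfl fun i _ => hfac y i]
        by_cases hxy : y = x
        · subst hxy; simp
        · obtain ⟨i, hi⟩ := Function.ne_iff.1 hxy
          rw [if_neg hxy, Finset.prod_eq_zero (Finset.mem_univ i) (if_neg hi)]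
      rw [h1, Finset.prod_add, Finset.sum_apply]
      refine Finset.sum_congr rfl fun T _ => ?_
      rw [Pi.smul_apply, smul_eq_mul, Finset.prod_mul_distrib]
      ring
    rw [e]
    exact Submodule.sum_mem _ fun T _ => Submodule.smul_mem _ _ (Submodule.subset_span ⟨T, rfl⟩)
  have e : f = ∑ x : V M, f x • (fun y : V M => if y = x then (1 : K) else 0) := by
    funext y
    rw [Finset.sum_apply]
    simp
  rw [e]
  exact Submodule.sum_mem _ fun x _ => Submodule.smul_mem _ _ (hδ x)

/-- the degree of a product after replacing the large blocks by their complements -/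
def blockDeg {J : Type} [Fintype J] (β : Fin M → J) [DecidableEq J] (T : Finset (Fin M)) : ℕ :=
  ∑ j : J, min (T.filter fun i => β i = j).card (((univ.filter fun i => β i = j) \ T).card)

/-- Reduction of the degree on the set `A`. -/
theorem reduce {J : Type} [Fintype J] [DecidableEq J] (β : Fin M → J)
    (g : Fin M → ZMod 2 → K) (h0 : ∀ i, g i 0 ≠ 0) (h1 : ∀ i, g i 1 ≠ 0)
    (A : Finset (V M)) (Q : J → V M → K) (D : ℕ) (hQ : ∀ j, Q j ∈ LK K M D)
    (hA : ∀ y ∈ A, ∀ j, Q j y = ∏ i ∈ univ.filter (fun i => β i = j), g i (y i))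
    (T : Finset (Fin M)) :
    ∃ f ∈ LK K M (blockDeg β T + Fintype.card J * D), ∀ y ∈ A, f y = ∏ i ∈ T, g i (y i) := by
  classical
  have hblock : ∀ j : J, ∃ f ∈ LK K M (min (T.filter fun i => β i = j).card
      (((univ.filter fun i => β i = j) \ T).card) + D),
      ∀ y ∈ A, f y = ∏ i ∈ T.filter (fun i => β i = j), g i (y i) := by
    intro j
    rcases le_total (T.filter fun i => β i = j).card
      (((univ.filter fun i => β i = j) \ T).card) with h | h
    · rw [min_eq_left h]
      exact ⟨_, LK_mono (Nat.le_add_right _ _) (prod_mem (T.filter fun i => β i = j) g),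
        fun y _ => rfl⟩
    · rw [min_eq_right h]
      refine ⟨(fun y : V M => ∏ i ∈ (univ.filter fun i => β i = j) \ T, (g i (y i))⁻¹) * Q j,
        LK_mul (prod_mem _ fun i c => (g i c)⁻¹) (hQ j), ?_⟩
      intro y hy
      rw [Pi.mul_apply, hA y hy j]
      have hsplit : (univ.filter fun i => β i = j) =
          (T.filter fun i => β i = j) ∪ ((univ.filter fun i => β i = j) \ T) := by
        ext i
        simp only [Finset.mem_filter, Finset.mem_union, Finset.mem_sdiff, Finset.mem_univ,
          true_and]
        tauto
      have hdis : Disjoint (T.filter fun i => β i = j) ((univ.filter fun i => β i = j) \ T) := by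
        rw [Finset.disjoint_left]
        intro i hi hi'
        rw [Finset.mem_filter] at hi
        rw [Finset.mem_sdiff] at hi'
        exact hi'.2 hi.1
      have hnz : ∏ i ∈ (univ.filter fun i => β i = j) \ T, g i (y i) ≠ 0 := by
        refine Finset.prod_ne_zero_iff.2 fun i _ => ?_
        rcases zmod2_c (y i) with h | h
        · rw [h]; exact h0 i
        · rw [h]; exact h1 i
      calc (∏ i ∈ (univ.filter fun i => β i = j) \ T, (g i (y i))⁻¹) *
            ∏ i ∈ univ.filter (fun i => β i = j), g i (y i)
          = (∏ i ∈ (univ.filter fun i => β i = j) \ T, g i (y i))⁻¹ *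
            ((∏ i ∈ T.filter (fun i => β i = j), g i (y i)) *
              ∏ i ∈ (univ.filter fun i => β i = j) \ T, g i (y i)) := by
            rw [Finset.prod_inv_distrib, ← Finset.prod_union hdis, ← hsplit]
        _ = _ := by
            rw [mul_comm, mul_assoc, mul_inv_cancel₀ hnz, mul_one]
  choose f hf hf' using hblock
  refine ⟨∏ j, f j, ?_, ?_⟩
  · have h := LK_prod (K := K) (n := M) (univ : Finset J) _ f fun j _ => hf j
    rw [Finset.sum_add_distrib, Finset.sum_const, smul_eq_mul, Finset.card_univ] at h
    exact h
  · intro y hy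
    rw [Finset.prod_apply, Finset.prod_congr rfl fun j _ => hf' j y hy]
    exact Finset.prod_fiberwise_of_maps_to (fun i _ => Finset.mem_univ (β i)) _

/-- The dimension bound. -/
theorem dim_bound {J : Type} [Fintype J] [DecidableEq J] (β : Fin M → J)
    (g : Fin M → ZMod 2 → K) (h0 : ∀ i, g i 0 ≠ 0) (h1 : ∀ i, g i 1 ≠ 0)
    (h01 : ∀ i, g i 0 ≠ g i 1)
    (A : Finset (V M)) (Q : J → V M → K) (D : ℕ) (hQ : ∀ j, Q j ∈ LK K M D)
    (hA : ∀ y ∈ A, ∀ j, Q j y = ∏ i ∈ univ.filter (fun i => β i = j), g i (y i)) (L : ℕ) :
    A.card ≤ ∑ i ∈ range (L + Fintype.card J * D + 1), M.choose i +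
      (univ.filter fun T : Finset (Fin M) => L < blockDeg β T).card := by
  classical
  let res : (V M → K) →ₗ[K] (A → K) := LinearMap.funLeft K K (fun a : A => a.1)
  have hsurj : Function.Surjective res :=
    LinearMap.funLeft_surjective_of_injective K K _ Subtype.val_injective
  let Bad : Finset (Finset (Fin M)) := univ.filter fun T => L < blockDeg β T
  let W2 : Submodule K (V M → K) := Submodule.span K
    (Set.range fun T : Bad => (fun y : V M => ∏ i ∈ T.1, g i (y i)))
  let W : Submodule K (V M → K) := LK K M (L + Fintype.card J * D) ⊔ W2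
  have htop : W.map res = ⊤ := by
    rw [eq_top_iff]
    rintro φ -
    obtain ⟨f, rfl⟩ := hsurj φ
    have hf := span_prod g h01 f
    have hle : Submodule.span K (Set.range fun T : Finset (Fin M) =>
        (fun y : V M => ∏ i ∈ T, g i (y i))) ≤ (W.map res).comap res := by
      rw [Submodule.span_le]
      rintro _ ⟨T, rfl⟩
      rw [SetLike.mem_coe, Submodule.mem_comap]
      by_cases hT : L < blockDeg β T
      · refine Submodule.mem_map_of_mem ?_
        refine Submodule.mem_sup_right (Submodule.subset_span ⟨⟨T, ?_⟩, rfl⟩)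
        exact Finset.mem_filter.2 ⟨Finset.mem_univ _, hT⟩
      · obtain ⟨f', hf', hf''⟩ := reduce β g h0 h1 A Q D hQ hA T
        have e : res (fun y : V M => ∏ i ∈ T, g i (y i)) = res f' := by
          funext a
          exact (hf'' a.1 a.2).symm
        rw [e]
        refine Submodule.mem_map_of_mem (Submodule.mem_sup_left (LK_mono ?_ hf'))
        push Not at hT
        omega
    exact hle hf
  have h2 : Module.finrank K (A → K) = A.card := by
    rw [Module.finrank_fintype_fun_eq_card, Fintype.card_coe]
  have h3 : Module.finrank K (A → K) ≤ Module.finrank K W := by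
    rw [← finrank_top (R := K) (M := A → K), ← htop]
    exact Submodule.finrank_map_le res W
  have h4 : Module.finrank K W ≤ Module.finrank K (LK K M (L + Fintype.card J * D)) +
      Module.finrank K W2 := Submodule.finrank_add_le_finrank_add_finrank _ _
  have h5 : Module.finrank K W2 ≤ Bad.card := by
    have := finrank_range_le_card (R := K) (b := fun T : Bad =>
      (fun y : V M => ∏ i ∈ T.1, g i (y i)))
    rwa [Fintype.card_coe] at this
  have h6 := finrank_LK (K := K) M (L + Fintype.card J * D)
  rw [← h2]
  exact h3.trans (h4.trans (Nat.add_le_add h6 h5))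

end Pool.Agent.L5helper57.AP
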