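import Pool.Agent.L5helper57.AP.Case2
import Pool.Agent.R544.Util
import Pool.Agent.H622R2.CoNP

/-!
# The quadratic permutation is exponentially one-way against circuits with `MOD p` gates
-/

set_option autoImplicit false

namespace Pool.Agent.L5helper57.AP

open Finset Pool.Agent.W856.Corner Pool.Agent.NPC

/-- Both characteristics. -/
theorem main_bound {p : ℕ} (hp : p.Prime) {n k d t m h : ℕ} (C : Circuit p n k)
    (hd : ∀ i, C.depth i ≤ d) (ht : 1 ≤ t) (hm : 1 ≤ m) (hh : 1 ≤ h)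
    (hD : 12 * (k * ((p - 1) * t) ^ d) ≤ h) (hn : 3 * (2 * m * bs h) + 2 < n)
    (out : Fin n → Fin C.N) :
    ((inverted C out).card : ℝ) ≤ 2 ^ n * (2 * Real.exp (-((m : ℝ) / 16384)) +
      C.andOr.card / 2 ^ t) := by
  have : Fact p.Prime := ⟨hp⟩
  by_cases h2 : p = 2
  · subst h2
    exact case_two C hd ht hm hh hD hn out
  · exact case_odd h2 C hd ht hm hh hD hn out

theorem ceil_le_two_mul {r : ℝ} (hr : 1 ≤ r) : (⌈r⌉₊ : ℝ) ≤ 2 * r := by
  have := Nat.ceil_lt_add_one (show 0 ≤ r by linarith)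
  linarith

/-- The explicit bound. -/
theorem explicit {p : ℕ} (hp : p.Prime) {n k d : ℕ} {r : ℝ} (hr : 1 ≤ r)
    (hn : 10 ^ 12 * (4 * ((p : ℝ) - 1)) ^ (2 * d) * r ^ (2 * d + 3) < n) (C : Circuit p n k)
    (hk : (k : ℝ) ≤ r) (hd : ∀ i, C.depth i ≤ d) (hs : (C.andOr.card : ℝ) ≤ (2 : ℝ) ^ r)
    (out : Fin n → Fin C.N) :
    ((inverted C out).card : ℝ) ≤ (2 : ℝ) ^ ((n : ℝ) - r) := by
  have hp1 : (1 : ℝ) ≤ (p : ℝ) - 1 := by
    have : (2 : ℝ) ≤ p := by exact_mod_cast hp.two_le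
    linarith
  have hpn : 1 ≤ p - 1 := by have := hp.two_le; omega
  set t : ℕ := ⌈3 * r⌉₊ with ht
  set m : ℕ := ⌈16384 * (r + 2)⌉₊ with hm
  set h : ℕ := 12 * (⌈r⌉₊ * ((p - 1) * t) ^ d) with hh
  have ht1 : 1 ≤ t := Nat.one_le_iff_ne_zero.2 (by
    rw [ht, ne_eq, Nat.ceil_eq_zero]; linarith)
  have hm1 : 1 ≤ m := Nat.one_le_iff_ne_zero.2 (by
    rw [hm, ne_eq, Nat.ceil_eq_zero]; linarith)
  have hr1 : 1 ≤ ⌈r⌉₊ := Nat.one_le_iff_ne_zero.2 (by
    rw [ne_eq, Nat.ceil_eq_zero]; linarith)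
  have hh1 : 1 ≤ h := by
    rw [hh]
    have : 1 ≤ ((p - 1) * t) ^ d := Nat.one_le_pow _ _ (Nat.mul_pos (by omega) (by omega))
    have : 1 ≤ ⌈r⌉₊ * ((p - 1) * t) ^ d := Nat.mul_pos hr1 this
    omega
  have hk' : k ≤ ⌈r⌉₊ := by
    have : (k : ℝ) ≤ ⌈r⌉₊ := hk.trans (Nat.le_ceil r)
    exact_mod_cast this
  have htR : (t : ℝ) ≤ 4 * r := by
    have := Nat.ceil_lt_add_one (show 0 ≤ 3 * r by linarith)
    rw [← ht] at this
    linarith
  have hmR : (m : ℝ) ≤ 65536 * r := by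
    have := Nat.ceil_lt_add_one (show 0 ≤ 16384 * (r + 2) by linarith)
    rw [← hm] at this
    linarith
  have hpc : ((p - 1 : ℕ) : ℝ) = (p : ℝ) - 1 := by
    rw [Nat.cast_sub hp.one_lt.le]; simp
  have hhR : (h : ℝ) ≤ 24 * (4 * ((p : ℝ) - 1)) ^ d * r ^ (d + 1) := by
    have h1 : (h : ℝ) = 12 * ((⌈r⌉₊ : ℝ) * (((p : ℝ) - 1) * t) ^ d) := by
      rw [hh]; push_cast; rw [hpc]
    rw [h1]
    have h2 : (((p : ℝ) - 1) * t) ^ d ≤ (((p : ℝ) - 1) * (4 * r)) ^ d :=
      pow_le_pow_left₀ (by positivity) (mul_le_mul_of_nonneg_left htR (by linarith)) d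
    calc 12 * ((⌈r⌉₊ : ℝ) * (((p : ℝ) - 1) * t) ^ d)
        ≤ 12 * ((2 * r) * (((p : ℝ) - 1) * (4 * r)) ^ d) := by
          refine mul_le_mul_of_nonneg_left ?_ (by norm_num)
          exact mul_le_mul (ceil_le_two_mul hr) h2 (by positivity) (by linarith)
      _ = _ := by
          rw [show ((p : ℝ) - 1) * (4 * r) = (4 * ((p : ℝ) - 1)) * r by ring, mul_pow]
          ring
  have hcond : 3 * (2 * m * bs h) + 2 < n := by
    have h1 : ((3 * (2 * m * bs h) + 2 : ℕ) : ℝ) < n := by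
      refine lt_of_le_of_lt ?_ hn
      unfold bs
      push_cast
      have h2 : (h : ℝ) ^ 2 ≤ 576 * (4 * ((p : ℝ) - 1)) ^ (2 * d) * r ^ (2 * d + 2) := by
        calc (h : ℝ) ^ 2 ≤ (24 * (4 * ((p : ℝ) - 1)) ^ d * r ^ (d + 1)) ^ 2 :=
              pow_le_pow_left₀ (Nat.cast_nonneg _) hhR 2
          _ = _ := by ring
      have h3 : (m : ℝ) * (h : ℝ) ^ 2 ≤ (65536 * r) *
          (576 * (4 * ((p : ℝ) - 1)) ^ (2 * d) * r ^ (2 * d + 2)) :=
        mul_le_mul hmR h2 (by positivity) (by linarith)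
      have h4 : (1 : ℝ) ≤ (4 * ((p : ℝ) - 1)) ^ (2 * d) * r ^ (2 * d + 3) :=
        one_le_mul_of_one_le_of_one_le (one_le_pow₀ (by linarith)) (one_le_pow₀ hr)
      have h5 : (65536 * r) * (576 * (4 * ((p : ℝ) - 1)) ^ (2 * d) * r ^ (2 * d + 2)) =
          37748736 * ((4 * ((p : ℝ) - 1)) ^ (2 * d) * r ^ (2 * d + 3)) := by ring
      rw [h5] at h3
      have h6 : 10 ^ 12 * (4 * ((p : ℝ) - 1)) ^ (2 * d) * r ^ (2 * d + 3) =
          10 ^ 12 * ((4 * ((p : ℝ) - 1)) ^ (2 * d) * r ^ (2 * d + 3)) := by ring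
      rw [h6]
      nlinarith
    exact_mod_cast h1
  have hb := main_bound hp C hd ht1 hm1 hh1
    (by rw [hh]; exact Nat.mul_le_mul_left _ (Nat.mul_le_mul_right _ hk')) hcond out
  refine hb.trans ?_
  have e1 : 2 * Real.exp (-((m : ℝ) / 16384)) ≤ (2 : ℝ) ^ (-r - 1) := by
    have h1 : r + 2 ≤ (m : ℝ) / 16384 := by
      have := Nat.le_ceil (16384 * (r + 2))
      rw [← hm] at this
      rw [le_div_iff₀ (by norm_num)]
      linarith
    have h2 : Real.exp (-((m : ℝ) / 16384)) ≤ (2 : ℝ) ^ (-(r + 2)) := by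
      rw [Real.rpow_def_of_pos (by norm_num)]
      apply Real.exp_le_exp.2
      have hlog : Real.log 2 ≤ 1 := by
        have := Real.log_two_lt_d9
        linarith
      have hlog0 : 0 ≤ Real.log 2 := Real.log_nonneg (by norm_num)
      nlinarith
    have h3 : (2 : ℝ) ^ (-r - 1) = 2 * (2 : ℝ) ^ (-(r + 2)) := by
      rw [show -r - 1 = 1 + -(r + 2) by ring, Real.rpow_add (by norm_num), Real.rpow_one]
    rw [h3]
    linarith
  have e2 : (C.andOr.card : ℝ) / 2 ^ t ≤ (2 : ℝ) ^ (-r - 1) := by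
    have h1 : (2 : ℝ) ^ (3 * r) ≤ 2 ^ t := by
      rw [← Real.rpow_natCast]
      exact Real.rpow_le_rpow_of_exponent_le (by norm_num) (Nat.le_ceil _)
    rw [div_le_iff₀ (by positivity)]
    calc (C.andOr.card : ℝ) ≤ (2 : ℝ) ^ r := hs
      _ ≤ (2 : ℝ) ^ (-r - 1 + 3 * r) :=
          Real.rpow_le_rpow_of_exponent_le (by norm_num) (by linarith)
      _ = (2 : ℝ) ^ (-r - 1) * (2 : ℝ) ^ (3 * r) := by rw [Real.rpow_add (by norm_num)]
      _ ≤ _ := mul_le_mul_of_nonneg_left h1 (by positivity)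
  have e3 : (2 : ℝ) ^ ((n : ℝ) - r) = 2 ^ n * ((2 : ℝ) ^ (-r - 1) + (2 : ℝ) ^ (-r - 1)) := by
    have : (2 : ℝ) ^ (-r - 1) + (2 : ℝ) ^ (-r - 1) = (2 : ℝ) ^ (-r) := by
      rw [← two_mul, show -r = 1 + (-r - 1) by ring, Real.rpow_add (by norm_num), Real.rpow_one]
      congr 2
      ring
    rw [this, sub_eq_add_neg, Real.rpow_add (by norm_num), Real.rpow_natCast]
  rw [e3]
  exact mul_le_mul_of_nonneg_left (add_le_add e1 e2) (by positivity)

/-- The asymptotic form. -/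
theorem asymptotic {p : ℕ} (hp : p.Prime) (d : ℕ) : ∀ᶠ n : ℕ in Filter.atTop,
    ∀ (k : ℕ) (C : Circuit p n k) (out : Fin n → Fin C.N),
      (k : ℝ) ≤ (n : ℝ) ^ (1 / (2 * d + 4 : ℝ)) → (∀ i, C.depth i ≤ d) →
      (C.andOr.card : ℝ) ≤ (2 : ℝ) ^ ((n : ℝ) ^ (1 / (2 * d + 4 : ℝ))) →
      ((inverted C out).card : ℝ) ≤ (2 : ℝ) ^ ((n : ℝ) - (n : ℝ) ^ (1 / (2 * d + 4 : ℝ))) := by
  have hδ : (0 : ℝ) < 1 / (2 * d + 4 : ℝ) := by positivity
  have hlim : Filter.Tendsto (fun n : ℕ => (n : ℝ) ^ (1 / (2 * d + 4 : ℝ))) Filter.atTop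
      Filter.atTop := (tendsto_rpow_atTop hδ).comp tendsto_natCast_atTop_atTop
  filter_upwards [hlim.eventually_gt_atTop (10 ^ 12 * (4 * ((p : ℝ) - 1)) ^ (2 * d)),
    hlim.eventually_ge_atTop 1, Filter.eventually_gt_atTop 0] with n h1 h2 h3 k C out hk hd hs
  have hn0 : (0 : ℝ) < n := by exact_mod_cast h3
  set r : ℝ := (n : ℝ) ^ (1 / (2 * d + 4 : ℝ)) with hr
  have h4 : r ^ (2 * d + 4) = n := by
    rw [hr, ← Real.rpow_natCast, ← Real.rpow_mul hn0.le]
    have : 1 / (2 * d + 4 : ℝ) * ((2 * d + 4 : ℕ) : ℝ) = 1 := by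
      push_cast
      field_simp
    rw [this, Real.rpow_one]
  refine explicit hp h2 ?_ C hk hd hs out
  calc 10 ^ 12 * (4 * ((p : ℝ) - 1)) ^ (2 * d) * r ^ (2 * d + 3)
      < r * r ^ (2 * d + 3) := mul_lt_mul_of_pos_right h1 (by positivity)
    _ = r ^ (2 * d + 4) := by ring
    _ = n := h4

/-! ### The function on strings -/

/-- The bit string of a vector. -/
def str {n : ℕ} (x : V n) : List Bool := List.ofFn fun j => decide (x j = 1)

/-- the output bit number `j` -/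
def obit (x : List Bool) (j : ℕ) : Bool :=
  if j < 3 then x.getD j false
  else if j % 3 = 0 then x.getD j false ^^ x.getD (j - 3) false
  else if j % 3 = 1 then (x.getD j false ^^ x.getD (j - 3) false) ^^
    (x.getD (j - 1) false && (x.getD (j - 3) false ^^ x.getD (j - 2) false))
  else (x.getD j false ^^ x.getD (j - 3) false) ^^
    (x.getD (j - 2) false && x.getD (j - 4) false)

/-- the map on strings -/
def strF (x : List Bool) : List Bool := (List.range x.length).map fun j => obit x j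

theorem poly_strF : NPC.Poly strF := by
  unfold strF obit
  refine NPC.Poly.map (UPoly.range (UPoly.length NPC.Poly.id)) ?_
  fun_prop

theorem polyTime_strF : PolyTime strF := H622R2.polyTime_of_poly_list poly_strF

theorem getD_str {n : ℕ} (x : V n) (k : ℕ) : (str x).getD k false = decide (co x k = 1) := by
  unfold str co
  by_cases h : k < n
  · rw [dif_pos h, List.getD_eq_getElem _ _ (by simpa using h), List.getElem_ofFn]
  · rw [dif_neg h, List.getD_eq_default _ _ (by simpa using h)]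
    decide

theorem dec_add (a b : ZMod 2) : decide (a + b = 1) = (decide (a = 1) ^^ decide (b = 1)) := by
  rcases zmod2_c a with ha | ha <;> rcases zmod2_c b with hb | hb <;> rw [ha, hb] <;> decide

theorem dec_mul (a b : ZMod 2) : decide (a * b = 1) = (decide (a = 1) && decide (b = 1)) := by
  rcases zmod2_c a with ha | ha <;> rcases zmod2_c b with hb | hb <;> rw [ha, hb] <;> decide

theorem strF_str {n : ℕ} (x : V n) : strF (str x) = str (F x) := by
  have hlen : (str x).length = n := by unfold str; simp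
  apply List.ext_getElem
  · unfold strF
    rw [List.length_map, List.length_range, hlen]
    unfold str
    simp
  · intro j h1 h2
    unfold strF
    rw [List.getElem_map, List.getElem_range]
    unfold str
    rw [List.getElem_ofFn]
    change obit (str x) j = _
    unfold obit F
    simp only [getD_str]
    have hj : j < n := by
      unfold strF at h1
      rw [List.length_map, List.length_range, hlen] at h1
      exact h1
    have e : x ⟨j, hj⟩ = co x j := (co_of_lt x hj).symm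
    simp only [e]
    split_ifs
    · rfl
    · rw [dec_add]
    · rw [dec_add, dec_add, dec_mul, dec_add]
    · rw [dec_add, dec_add, dec_mul]

/-- every output bit depends on at most four input bits -/
theorem locality (n : ℕ) (j : Fin n) : ∃ S : Finset (Fin n), S.card ≤ 4 ∧
    ∀ x y : V n, (∀ i ∈ S, x i = y i) → F x j = F y j := by
  classical
  let S : Finset (Fin n) := univ.filter fun i => (i : ℕ) = j ∨ (i : ℕ) = j - 3 ∨
    (if (j : ℕ) % 3 = 1 then (i : ℕ) = j - 1 ∨ (i : ℕ) = j - 2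
      else (i : ℕ) = j - 2 ∨ (i : ℕ) = j - 4)
  have hco : ∀ (x y : V n) (k : ℕ), (∀ i ∈ S, x i = y i) →
      (k = j ∨ k = j - 3 ∨ (if (j : ℕ) % 3 = 1 then k = j - 1 ∨ k = j - 2
        else k = j - 2 ∨ k = j - 4)) → co x k = co y k := by
    intro x y k h hk
    unfold co
    split_ifs with h1
    · exact h _ (Finset.mem_filter.2 ⟨Finset.mem_univ _, hk⟩)
    · rfl
  refine ⟨S, ?_, fun x y h => ?_⟩
  · have h1 : S.image (fun i : Fin n => (i : ℕ)) ⊆
        if (j : ℕ) % 3 = 1 then {(j : ℕ), (j : ℕ) - 3, (j : ℕ) - 1, (j : ℕ) - 2}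
        else {(j : ℕ), (j : ℕ) - 3, (j : ℕ) - 2, (j : ℕ) - 4} := by
      intro k hk
      rw [Finset.mem_image] at hk
      obtain ⟨i, hi, rfl⟩ := hk
      have hi2 := (Finset.mem_filter.1 hi).2
      split_ifs with h2
      · rw [if_pos h2] at hi2
        simp only [Finset.mem_insert, Finset.mem_singleton]
        exact hi2
      · rw [if_neg h2] at hi2
        simp only [Finset.mem_insert, Finset.mem_singleton]
        exact hi2
    have h2 := Finset.card_le_card h1
    rw [Finset.card_image_of_injective _ Fin.val_injective] at h2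
    refine h2.trans ?_
    split_ifs
    · exact Finset.card_le_four
    · exact Finset.card_le_four
  · have e1 : x j = y j := h j (Finset.mem_filter.2 ⟨Finset.mem_univ _, Or.inl rfl⟩)
    unfold F
    split_ifs with h1 h2 h3
    · exact e1
    · rw [e1, hco x y _ h (Or.inr (Or.inl rfl))]
    · rw [e1, hco x y (j - 3) h (Or.inr (Or.inl rfl)),
        hco x y (j - 1) h (Or.inr (Or.inr (by rw [if_pos h3]; exact Or.inl rfl))),
        hco x y (j - 2) h (Or.inr (Or.inr (by rw [if_pos h3]; exact Or.inr rfl)))]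
    · rw [e1, hco x y (j - 3) h (Or.inr (Or.inl rfl)),
        hco x y (j - 2) h (Or.inr (Or.inr (by rw [if_neg h3]; exact Or.inl rfl))),
        hco x y (j - 4) h (Or.inr (Or.inr (by rw [if_neg h3]; exact Or.inr rfl)))]

end Pool.Agent.L5helper57.AP
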