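import Pool.Agent.L5helper57.AP.Comb

/-!
# The quadratic permutation, substitutions, and approximation of circuits on a substitution
-/

set_option autoImplicit false

namespace Pool.Agent.L5helper57.AP

open Finset Pool.Agent.W856.Corner

/-- The coordinate `k` of `x` (and `0` if `x` has no such coordinate). -/
def co {n : ℕ} (x : V n) (k : ℕ) : ZMod 2 := if h : k < n then x ⟨k, h⟩ else 0

/-- The quadratic map on `F_2^n`: the output coordinate `j` is `x_j` for `j < 3`, and for `j ≥ 3`
it is `x_j + x_{j-3}` if `3 ∣ j`, it is `x_j + x_{j-3} + x_{j-1} (x_{j-3} + x_{j-2})` if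
`j ≡ 1 mod 3`, and it is `x_j + x_{j-3} + x_{j-2} x_{j-4}` if `j ≡ 2 mod 3`. -/
def F {n : ℕ} (x : V n) : V n := fun j =>
  if (j : ℕ) < 3 then x j
  else if (j : ℕ) % 3 = 0 then x j + co x (j - 3)
  else if (j : ℕ) % 3 = 1 then x j + co x (j - 3) + co x (j - 1) * (co x (j - 3) + co x (j - 2))
  else x j + co x (j - 3) + co x (j - 2) * co x (j - 4)

theorem co_eq {n : ℕ} (x : V n) (j : Fin n) : co x j = x j := by
  unfold co
  rw [dif_pos j.2]

theorem F_injective {n : ℕ} : Function.Injective (F : V n → V n) := by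
  intro x y hxy
  have key : ∀ k : ℕ, co x k = co y k := by
    intro k
    induction k using Nat.strong_induction_on with
    | _ k ih =>
      by_cases hk : k < n
      · have h := congrFun hxy ⟨k, hk⟩
        unfold F at h
        simp only at h
        have e1 : x ⟨k, hk⟩ = co x k := (co_eq x ⟨k, hk⟩).symm
        have e2 : y ⟨k, hk⟩ = co y k := (co_eq y ⟨k, hk⟩).symm
        rw [e1, e2] at h
        split_ifs at h with h1 h2 h3
        · exact h
        · rw [ih (k - 3) (by omega)] at h
          exact add_right_cancel h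
        · rw [ih (k - 3) (by omega), ih (k - 1) (by omega), ih (k - 2) (by omega)] at h
          exact add_right_cancel (add_right_cancel h)
        · rw [ih (k - 3) (by omega), ih (k - 2) (by omega), ih (k - 4) (by omega)] at h
          exact add_right_cancel (add_right_cancel h)
      · unfold co
        rw [dif_neg hk, dif_neg hk]
  funext j
  rw [← co_eq x j, ← co_eq y j, key]

theorem F_bijective {n : ℕ} : Function.Bijective (F : V n → V n) :=
  Finite.injective_iff_bijective.1 F_injective

/-! ### Substitutions -/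

section Sub

variable {M n : ℕ} {K : Type} [Field K]

theorem LK_comp {D : ℕ} {φ : V M → V n} (hφ : ∀ j, (fun a => bit K (φ a) j) ∈ LK K M 1)
    {f : V n → K} (hf : f ∈ LK K n D) : (fun a => f (φ a)) ∈ LK K M D := by
  unfold LK at hf
  induction hf using Submodule.span_induction with
  | mem f hf =>
    obtain ⟨⟨s, hs⟩, rfl⟩ := hf
    have h := LK_prod (K := K) (n := M) s (fun _ => 1) (fun i a => bit K (φ a) i) fun i _ => hφ i
    have e : (∏ i ∈ s, fun a : V M => bit K (φ a) i) = fun a : V M => mon K s (φ a) := by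
      funext a
      rw [Finset.prod_apply]
      rfl
    rw [e] at h
    exact LK_mono (by simpa using hs) h
  | zero => exact Submodule.zero_mem _
  | add f g _ _ h1 h2 => exact Submodule.add_mem _ h1 h2
  | smul c f _ h => exact Submodule.smul_mem _ c h

theorem LK_alg {p : ℕ} [Fact p.Prime] [Algebra (ZMod p) K] {D : ℕ} {f : V n → ZMod p}
    (hf : f ∈ LK (ZMod p) n D) : (fun a => algebraMap (ZMod p) K (f a)) ∈ LK K n D := by
  unfold LK at hf
  induction hf using Submodule.span_induction with
  | mem f hf =>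
    obtain ⟨⟨s, hs⟩, rfl⟩ := hf
    have e : (fun a => algebraMap (ZMod p) K (mon (ZMod p) s a)) = mon K s := by
      funext a
      unfold mon
      rw [map_prod]
      refine Finset.prod_congr rfl fun i _ => ?_
      unfold bit
      split_ifs <;> simp
    simp only
    rw [e]
    exact mon_mem s hs
  | zero =>
    have e : (fun a : V n => algebraMap (ZMod p) K ((0 : V n → ZMod p) a)) = 0 := by
      funext a
      simp
    rw [e]
    exact Submodule.zero_mem _
  | add f g _ _ h1 h2 =>
    have e : (fun a : V n => algebraMap (ZMod p) K ((f + g) a)) =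
        (fun a => algebraMap (ZMod p) K (f a)) + fun a => algebraMap (ZMod p) K (g a) := by
      funext a
      simp
    rw [e]
    exact Submodule.add_mem _ h1 h2
  | smul c f _ h =>
    have e : (fun a : V n => algebraMap (ZMod p) K ((c • f) a)) =
        algebraMap (ZMod p) K c • fun a => algebraMap (ZMod p) K (f a) := by
      funext a
      simp
    rw [e]
    exact Submodule.smul_mem _ _ h

theorem LB_alg {p : ℕ} [Fact p.Prime] [Algebra (ZMod p) K] {D : ℕ} {f : V n → Bool}
    (hf : LB (ZMod p) D f) : (fun a => bi K (f a)) ∈ LK K n D := by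
  have h := LK_alg (K := K) hf
  have e : (fun a => algebraMap (ZMod p) K (bi (ZMod p) (f a))) = fun a => bi K (f a) := by
    funext a
    unfold bi
    split_ifs <;> simp
  rwa [e] at h

/-- Approximation of all nodes of a circuit on a substitution. -/
theorem approx_sub {p : ℕ} [Fact p.Prime] [Algebra (ZMod p) K] {k d t : ℕ} (C : Circuit p n k)
    (hd : ∀ i, C.depth i ≤ d) (ht : 1 ≤ t) {φ : V M → V n}
    (hφ : ∀ j, (fun a => bit K (φ a) j) ∈ LK K M 1) (E : Finset (V M)) :
    ∃ (U : Fin C.N → V M → K) (A : Finset (V M)),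
      (∀ i, U i ∈ LK K M (k * ((p - 1) * t) ^ d)) ∧ A ⊆ E ∧
      (∀ a ∈ A, ∀ i, U i a = bi K (C.val i (φ a))) ∧
      E.card * 2 ^ t ≤ A.card * 2 ^ t + C.andOr.card * 2 ^ M := by
  classical
  obtain ⟨P, hP1, hP2⟩ := approx C t ht
  have hpt : 1 ≤ (p - 1) * t := Nat.one_le_iff_ne_zero.2 (by
    have := (Fact.out : p.Prime).two_le
    have : p - 1 ≠ 0 := by omega
    exact Nat.mul_ne_zero this (by omega))
  -- averaging over the random choices
  have havg : ∃ w : Om p C.N t, (univ.filter fun a : V M => ∃ i, P w i (φ a) ≠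
      C.val i (φ a)).card * 2 ^ t ≤ C.andOr.card * 2 ^ M := by
    by_contra hcon
    push Not at hcon
    have h1 : ∑ w : Om p C.N t, (C.andOr.card * 2 ^ M) <
        ∑ w : Om p C.N t, (univ.filter fun a : V M => ∃ i, P w i (φ a) ≠
          C.val i (φ a)).card * 2 ^ t :=
      Finset.sum_lt_sum_of_nonempty Finset.univ_nonempty fun w _ => hcon w
    have e1 : ∑ w : Om p C.N t, (univ.filter fun a : V M => ∃ i, P w i (φ a) ≠
        C.val i (φ a)).card * 2 ^ t = (∑ w : Om p C.N t, (univ.filter fun a : V M =>
          ∃ i, P w i (φ a) ≠ C.val i (φ a)).card) * 2 ^ t := (Finset.sum_mul _ _ _).symm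
    rw [e1] at h1
    have h2 : ∑ w : Om p C.N t, (univ.filter fun a : V M => ∃ i, P w i (φ a) ≠
        C.val i (φ a)).card = ∑ a : V M, (univ.filter fun w : Om p C.N t =>
          ∃ i, P w i (φ a) ≠ C.val i (φ a)).card := by
      simp only [Finset.card_filter]
      exact Finset.sum_comm
    rw [h2, Finset.sum_mul] at h1
    have h3 : ∑ a : V M, (univ.filter fun w : Om p C.N t =>
          ∃ i, P w i (φ a) ≠ C.val i (φ a)).card * 2 ^ t ≤
        ∑ _a : V M, C.andOr.card * Fintype.card (Om p C.N t) := by
      refine Finset.sum_le_sum fun a _ => ?_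
      have := hP2 (φ a)
      rw [Nat.card_eq_fintype_card, Fintype.card_subtype] at this
      exact this
    rw [Finset.sum_const, Finset.card_univ, smul_eq_mul] at h1
    rw [Finset.sum_const, Finset.card_univ, smul_eq_mul] at h3
    have h4 : Fintype.card (V M) = 2 ^ M := by
      rw [Fintype.card_fun, ZMod.card, Fintype.card_fin]
    rw [h4] at h3
    have h5 := lt_of_lt_of_le h1 h3
    have h6 : Fintype.card (Om p C.N t) * (C.andOr.card * 2 ^ M) =
        2 ^ M * (C.andOr.card * Fintype.card (Om p C.N t)) := by ring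
    omega
  obtain ⟨w, hw⟩ := havg
  refine ⟨fun i a => bi K (P w i (φ a)), E.filter fun a => ∀ i, P w i (φ a) = C.val i (φ a),
    ?_, Finset.filter_subset _ _, ?_, ?_⟩
  · intro i
    refine LK_mono ?_ (LK_comp hφ (LB_alg (hP1 w i)))
    exact Nat.mul_le_mul_left _ (Nat.pow_le_pow_right hpt (hd i))
  · intro a ha i
    simp only
    rw [(Finset.mem_filter.1 ha).2 i]
  · have h1 := Finset.card_filter_add_card_filter_not (s := E)
      (fun a => ∀ i, P w i (φ a) = C.val i (φ a))
    have h2 : (E.filter fun a => ¬ ∀ i, P w i (φ a) = C.val i (φ a)).card ≤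
        (univ.filter fun a : V M => ∃ i, P w i (φ a) ≠ C.val i (φ a)).card := by
      refine Finset.card_le_card fun a ha => ?_
      rw [Finset.mem_filter] at ha ⊢
      refine ⟨Finset.mem_univ _, ?_⟩
      push Not at ha
      exact ha.2
    calc E.card * 2 ^ t = (E.filter fun a => ∀ i, P w i (φ a) = C.val i (φ a)).card * 2 ^ t +
          (E.filter fun a => ¬ ∀ i, P w i (φ a) = C.val i (φ a)).card * 2 ^ t := by
          rw [← add_mul, h1]
      _ ≤ _ := Nat.add_le_add_left ((Nat.mul_le_mul_right _ h2).trans hw) _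

end Sub

/-- Averaging over the shifts. -/
theorem exists_shift {M n : ℕ} (S : Finset (V n)) (Ψ : V M → V n → V n)
    (hΨ : ∀ a, Function.Injective (Ψ a)) :
    ∃ z, 2 ^ M * S.card ≤ 2 ^ n * (univ.filter fun a => Ψ a z ∈ S).card := by
  classical
  have hcV : ∀ l : ℕ, Fintype.card (V l) = 2 ^ l := fun l => by
    rw [Fintype.card_fun, ZMod.card, Fintype.card_fin]
  by_contra hcon
  push Not at hcon
  have h1 : ∑ z : V n, 2 ^ n * (univ.filter fun a => Ψ a z ∈ S).card <
      ∑ _z : V n, 2 ^ M * S.card :=
    Finset.sum_lt_sum_of_nonempty Finset.univ_nonempty fun z _ => hcon z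
  rw [← Finset.mul_sum, Finset.sum_const, Finset.card_univ, smul_eq_mul, hcV] at h1
  have h2 : ∑ z : V n, (univ.filter fun a => Ψ a z ∈ S).card =
      ∑ a : V M, (univ.filter fun z => Ψ a z ∈ S).card := by
    simp only [Finset.card_filter]
    exact Finset.sum_comm
  have h3 : ∀ a : V M, (univ.filter fun z => Ψ a z ∈ S).card = S.card := by
    intro a
    have hbij : Function.Bijective (Ψ a) := Finite.injective_iff_bijective.1 (hΨ a)
    refine Finset.card_bij (fun z _ => Ψ a z) ?_ ?_ ?_
    · intro z hz
      exact (Finset.mem_filter.1 hz).2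
    · intro z _ z' _ h
      exact hΨ a h
    · intro x hx
      obtain ⟨z, rfl⟩ := hbij.2 x
      exact ⟨z, Finset.mem_filter.2 ⟨Finset.mem_univ _, hx⟩, rfl⟩
  rw [h2, Finset.sum_congr rfl fun a _ => h3 a, Finset.sum_const, Finset.card_univ, smul_eq_mul,
    hcV] at h1
  exact lt_irrefl _ h1

/-- the product over a block -/
theorem prod_blk {K : Type} [Field K] (m h : ℕ) (G : ℕ → K) (j : Fin (2 * m)) :
    ∏ i ∈ univ.filter (fun i : Fin (2 * m * bs h) => blk m h i = j), G i =
      ∏ r ∈ range (bs h), G (bs h * j + r) := by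
  classical
  rw [← Fin.prod_univ_eq_prod_range (fun r => G (bs h * j + r)) (bs h)]
  refine Finset.prod_bij' (fun i _ => (finProdFinEquiv.symm i).2)
    (fun r _ => finProdFinEquiv (j, r)) ?_ ?_ ?_ ?_ ?_
  · intro i _; exact Finset.mem_univ _
  · intro r _
    rw [Finset.mem_filter]
    refine ⟨Finset.mem_univ _, ?_⟩
    unfold blk
    rw [Equiv.symm_apply_apply]
  · intro i hi
    rw [Finset.mem_filter] at hi
    rw [← hi.2]
    exact finProdFinEquiv.apply_symm_apply i
  · intro r _
    simp only [Equiv.symm_apply_apply]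
  · intro i hi
    rw [Finset.mem_filter] at hi
    have h1 : finProdFinEquiv (j, (finProdFinEquiv.symm i).2) = i := by
      rw [← hi.2]
      exact finProdFinEquiv.apply_symm_apply i
    have h2 : (i : ℕ) = bs h * j + ((finProdFinEquiv.symm i).2 : ℕ) := by
      conv_lhs => rw [← h1]
      rw [finProdFinEquiv_apply_val]
      ring
    rw [← h2]

/-- telescoping -/
theorem telescope {K : Type} [Field K] (κ G : ℕ → K) (b l : ℕ)
    (h : ∀ r < l, κ (b + r + 1) = κ (b + r) * G (b + r)) :
    κ (b + l) = κ b * ∏ r ∈ range l, G (b + r) := by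
  induction l with
  | zero => simp
  | succ l ih =>
    rw [Finset.prod_range_succ, ← mul_assoc, ← ih fun r hr => h r (by omega),
      ← h l (by omega)]
    rfl

end Pool.Agent.L5helper57.AP
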